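import Mathlib

/-!
# Lamps over the integers, read modulo n

`WG A` is the (unrestricted) group of pairs (shift, lamps), `rho n` is the homomorphism of the free
group on a shift letter and one letter for each element of `A` that puts the lamp at the multiples
of `n`.
-/

set_option autoImplicit false

namespace Pool.LP

/-- A shift together with lamps with values in `A`. -/
@[ext] structure WG (A : Type) where
  e : ℤ
  f : ℤ → A

namespace WG

variable {A : Type} [Group A]

instance : Mul (WG A) := ⟨fun a b => ⟨a.e + b.e, fun r => a.f (r + b.e) * b.f r⟩⟩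
instance : One (WG A) := ⟨⟨0, fun _ => 1⟩⟩
instance : Inv (WG A) := ⟨fun a => ⟨-a.e, fun r => (a.f (r - a.e))⁻¹⟩⟩

@[simp] lemma mul_e (a b : WG A) : (a * b).e = a.e + b.e := rfl
@[simp] lemma mul_f (a b : WG A) (r : ℤ) : (a * b).f r = a.f (r + b.e) * b.f r := rfl
@[simp] lemma one_e : (1 : WG A).e = 0 := rfl
@[simp] lemma one_f (r : ℤ) : (1 : WG A).f r = 1 := rfl
@[simp] lemma inv_e (a : WG A) : (a⁻¹).e = -a.e := rfl
@[simp] lemma inv_f (a : WG A) (r : ℤ) : (a⁻¹).f r = (a.f (r - a.e))⁻¹ := rfl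

instance : Group (WG A) := Group.ofLeftAxioms
  (fun a b c => by
    apply WG.ext
    · simp [add_assoc]
    · funext r
      simp only [mul_f, mul_e, mul_assoc]
      rw [show r + (b.e + c.e) = r + c.e + b.e by ring])
  (fun a => by
    apply WG.ext
    · simp
    · funext r
      simp)
  (fun a => by
    apply WG.ext
    · simp
    · funext r
      simp)

lemma conj_e (x g : WG A) (hx : x.e = 0) : (g⁻¹ * x * g).e = 0 := by
  simp [hx]

lemma conj_f (x g : WG A) (hx : x.e = 0) (r : ℤ) :
    (g⁻¹ * x * g).f r = (g.f r)⁻¹ * x.f (r + g.e) * g.f r := by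
  simp [hx]

lemma comm_f (x y : WG A) (hx : x.e = 0) (hy : y.e = 0) (r : ℤ) :
    (x * y * x⁻¹ * y⁻¹).f r = x.f r * y.f r * (x.f r)⁻¹ * (y.f r)⁻¹ := by
  simp [hx, hy]

/-- The shift part, as a homomorphism. -/
def eHom : WG A →* Multiplicative ℤ where
  toFun x := Multiplicative.ofAdd x.e
  map_one' := rfl
  map_mul' x y := by simp [ofAdd_add]

lemma pow_e (x : WG A) (k : ℕ) : (x ^ k).e = k * x.e := by
  induction k with
  | zero => simp
  | succ k ih => rw [pow_succ, mul_e, ih]; push_cast; ring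

lemma zpow_e (x : WG A) (k : ℤ) : (x ^ k).e = k * x.e := by
  cases k with
  | ofNat k => simp [pow_e]
  | negSucc k => rw [zpow_negSucc, inv_e, pow_e, Int.negSucc_eq]; push_cast; ring

end WG

/-- The free group on the shift letter and on the elements of `A`. -/
abbrev E (A : Type) := FreeGroup (Option A)

/-- The shift letter. -/
def tt {A : Type} : E A := FreeGroup.of none
/-- The lamp letters. -/
def hh {A : Type} (a : A) : E A := FreeGroup.of (some a)

variable {A : Type} [Group A]

/-- The image of a letter. -/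
def rgen (n : ℕ) : Option A → WG A
  | none => ⟨1, fun _ => 1⟩
  | some a => ⟨0, fun r => if (n : ℤ) ∣ r then a else 1⟩

/-- Lamps at the multiples of `n`. -/
def rho (n : ℕ) : E A →* WG A := FreeGroup.lift (rgen n)

@[simp] lemma rho_tt (n : ℕ) : rho (A := A) n tt = ⟨1, fun _ => 1⟩ := by
  simp [rho, tt, rgen]

@[simp] lemma rho_hh (n : ℕ) (a : A) :
    rho n (hh a) = ⟨0, fun r => if (n : ℤ) ∣ r then a else 1⟩ := by
  simp [rho, hh, rgen]

omit [Group A] in
/-- induction on the free group, with our letters -/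
lemma E_ind {C : E A → Prop} (h1 : C 1) (ht : C tt) (hti : C tt⁻¹)
    (hh' : ∀ a, C (hh a)) (hhi : ∀ a, C (hh a)⁻¹) (hm : ∀ x y, C x → C y → C (x * y))
    (u : E A) : C u := by
  refine FreeGroup.induction_on u h1 ?_ ?_ hm
  · intro x
    cases x with
    | none => exact ht
    | some a => exact hh' a
  · intro x _
    cases x with
    | none => exact hti
    | some a => exact hhi a

lemma rho_e (n : ℕ) (u : E A) : (rho n u).e = (rho 0 u).e := by
  induction u using E_ind with
  | h1 => simp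
  | ht => simp
  | hti => simp
  | hh' a => simp
  | hhi a => simp
  | hm x y hx hy => simp only [map_mul, WG.mul_e, hx, hy]

/-- The exponent of the shift letter. -/
def ex (u : E A) : ℤ := (rho 0 u).e

@[simp] lemma ex_mul (u v : E A) : ex (u * v) = ex u + ex v := by simp [ex]
@[simp] lemma ex_inv (u : E A) : ex u⁻¹ = - ex u := by simp [ex]
@[simp] lemma ex_one : ex (1 : E A) = 0 := by simp [ex]
@[simp] lemma ex_tt : ex (tt : E A) = 1 := by simp [ex]
@[simp] lemma ex_hh (a : A) : ex (hh a) = 0 := by simp [ex]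
lemma rho_ex (n : ℕ) (u : E A) : (rho n u).e = ex u := rho_e n u
lemma ex_zpow (u : E A) (k : ℤ) : ex (u ^ k) = k * ex u := by
  simp [ex, map_zpow, WG.zpow_e]

lemma rho_periodic (n : ℕ) (u : E A) (r s : ℤ) (h : (n : ℤ) ∣ r - s) :
    (rho n u).f r = (rho n u).f s := by
  induction u using E_ind generalizing r s with
  | h1 => simp
  | ht => simp
  | hti => simp
  | hh' a =>
    simp only [rho_hh]
    have : (n : ℤ) ∣ r ↔ (n : ℤ) ∣ s := by
      constructor
      · intro h1; have := dvd_sub h1 h; simpa using this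
      · intro h1; have := dvd_add h1 h; simpa using this
    simp [this]
  | hhi a =>
    simp only [map_inv, WG.inv_f, rho_hh, sub_zero]
    have : (n : ℤ) ∣ r ↔ (n : ℤ) ∣ s := by
      constructor
      · intro h1; have := dvd_sub h1 h; simpa using this
      · intro h1; have := dvd_add h1 h; simpa using this
    simp [this]
  | hm x y hx hy =>
    simp only [map_mul, WG.mul_f]
    rw [hy r s h, hx (r + (rho n y).e) (s + (rho n y).e) (by simpa using h)]

/-! ### Comparison of lamps modulo n with lamps at infinity -/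

/-- The family agrees, for `n = 0` or `n` large, with its member at `0`, folded modulo `n`. -/
def GoodF (φ : ℕ → ℤ → A) (M : ℤ) : Prop :=
  ∀ n : ℕ, (n = 0 ∨ 2 * M < n) → ∀ r : ℤ,
    (∀ k : ℤ, |k| ≤ M → (n : ℤ) ∣ r - k → φ n r = φ 0 k) ∧
    ((∀ k : ℤ, |k| ≤ M → ¬ (n : ℤ) ∣ r - k) → φ n r = 1)

lemma GoodF.zero_out {φ : ℕ → ℤ → A} {M : ℤ} (h : GoodF φ M) (k : ℤ) (hk : M < |k|) :
    φ 0 k = 1 := by
  refine (h 0 (Or.inl rfl) k).2 ?_
  intro k' hk' hd
  have : k = k' := by
    have := zero_dvd_iff.mp (show (0 : ℤ) ∣ k - k' by simpa using hd)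
    linarith
  subst this
  linarith

lemma eq_of_dvd_small {n : ℕ} {k k' B : ℤ} (hn : n = 0 ∨ B < n) (hd : (n : ℤ) ∣ k - k')
    (hB : |k - k'| ≤ B) : k = k' := by
  rcases hn with hn | hn
  · subst hn
    have := zero_dvd_iff.mp (show (0 : ℤ) ∣ k - k' by simpa using hd)
    linarith
  · by_contra hne
    have h1 : (n : ℤ) ≤ |k - k'| :=
      Int.le_of_dvd (abs_pos.mpr (sub_ne_zero.mpr hne)) ((dvd_abs _ _).mpr hd)
    linarith

lemma GoodF.mono {φ : ℕ → ℤ → A} {M M' : ℤ} (h : GoodF φ M) (hM : M ≤ M') : GoodF φ M' := by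
  intro n hn r
  have hn' : n = 0 ∨ 2 * M < n := by
    rcases hn with hn | hn
    · exact Or.inl hn
    · right; linarith
  refine ⟨?_, ?_⟩
  · intro k hk hd
    by_cases hkM : |k| ≤ M
    · exact (h n hn' r).1 k hkM hd
    · push Not at hkM
      rw [h.zero_out k hkM]
      refine (h n hn' r).2 ?_
      intro k' hk' hd'
      have h1 : (n : ℤ) ∣ k - k' := by
        have := dvd_sub hd' hd
        have e : r - k' - (r - k) = k - k' := by ring
        rwa [e] at this
      have h2 : |k - k'| ≤ 2 * M' := by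
        have := abs_sub k k'
        linarith
      have := eq_of_dvd_small hn h1 h2
      subst this
      linarith
  · intro hk
    refine (h n hn' r).2 ?_
    intro k hkM
    exact hk k (hkM.trans hM)

lemma GoodF.mul {φ ψ : ℕ → ℤ → A} {M : ℤ} (h : GoodF φ M) (h' : GoodF ψ M) :
    GoodF (fun n r => φ n r * ψ n r) M := by
  intro n hn r
  refine ⟨?_, ?_⟩
  · intro k hk hd
    simp only
    rw [(h n hn r).1 k hk hd, (h' n hn r).1 k hk hd]
  · intro hk
    simp only
    rw [(h n hn r).2 hk, (h' n hn r).2 hk, one_mul]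

lemma GoodF.inv {φ : ℕ → ℤ → A} {M : ℤ} (h : GoodF φ M) :
    GoodF (fun n r => (φ n r)⁻¹) M := by
  intro n hn r
  refine ⟨?_, ?_⟩
  · intro k hk hd
    simp only
    rw [(h n hn r).1 k hk hd]
  · intro hk
    simp only
    rw [(h n hn r).2 hk, inv_one]

lemma GoodF.shift {φ : ℕ → ℤ → A} {M : ℤ} (h : GoodF φ M) (_hM : 0 ≤ M) (c : ℤ) :
    GoodF (fun n r => φ n (r + c)) (M + |c|) := by
  have hc := abs_nonneg c
  intro n hn r
  have hn' : n = 0 ∨ 2 * M < n := by
    rcases hn with hn | hn
    · exact Or.inl hn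
    · right; linarith
  refine ⟨?_, ?_⟩
  · intro k hk hd
    simp only
    by_cases hkM : |k + c| ≤ M + |c|
    · exact ((h.mono (by linarith : M ≤ M + |c|)) n hn (r + c)).1 (k + c) hkM (by simpa using hd)
    · push Not at hkM
      rw [h.zero_out (k + c) (by linarith)]
      refine (h n hn' (r + c)).2 ?_
      intro k' hk' hd'
      have h1 : (n : ℤ) ∣ k + c - k' := by
        have := dvd_sub hd' hd
        have e : r + c - k' - (r - k) = k + c - k' := by ring
        rwa [e] at this
      have h2 : |k + c - k'| ≤ 2 * (M + |c|) := by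
        have h3 := abs_sub (k + c) k'
        have h4 := abs_add_le k c
        linarith
      have := eq_of_dvd_small hn h1 h2
      rw [this] at hkM
      linarith
  · intro hk
    refine (h n hn' (r + c)).2 ?_
    intro k' hk' hd'
    refine hk (k' - c) ?_ ?_
    · have := abs_sub k' c
      linarith
    · have e : r - (k' - c) = r + c - k' := by ring
      rwa [e]

lemma exists_good (u : E A) : ∃ M : ℤ, 0 ≤ M ∧ GoodF (fun n r => (rho n u).f r) M := by
  induction u using E_ind with
  | h1 =>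
    refine ⟨0, le_rfl, ?_⟩
    intro n _ r; simp
  | ht =>
    refine ⟨0, le_rfl, ?_⟩
    intro n _ r; simp
  | hti =>
    refine ⟨0, le_rfl, ?_⟩
    intro n _ r; simp
  | hh' a =>
    refine ⟨0, le_rfl, ?_⟩
    intro n _ r
    refine ⟨?_, ?_⟩
    · intro k hk hd
      have hk0 : k = 0 := abs_eq_zero.mp (le_antisymm hk (abs_nonneg k))
      subst hk0
      have hd' : (n : ℤ) ∣ r := by simpa using hd
      simp [hd']
    · intro hk
      have := hk 0 (by simp)
      simp only [sub_zero] at this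
      simp [this]
  | hhi a =>
    refine ⟨0, le_rfl, ?_⟩
    intro n _ r
    refine ⟨?_, ?_⟩
    · intro k hk hd
      have hk0 : k = 0 := abs_eq_zero.mp (le_antisymm hk (abs_nonneg k))
      subst hk0
      have hd' : (n : ℤ) ∣ r := by simpa using hd
      simp [hd']
    · intro hk
      have := hk 0 (by simp)
      simp only [sub_zero] at this
      simp [this]
  | hm x y ihx ihy =>
    obtain ⟨Mx, hMx, hx⟩ := ihx
    obtain ⟨My, hMy, hy⟩ := ihy
    have h1 := hx.shift hMx (ex y)
    have hc := abs_nonneg (ex y)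
    refine ⟨Mx + |ex y| + My, by linarith, ?_⟩
    have h2 := (h1.mono (by linarith : Mx + |ex y| ≤ Mx + |ex y| + My)).mul
      (hy.mono (by linarith : My ≤ Mx + |ex y| + My))
    intro n hn r
    have h3 := h2 n hn r
    simp only [map_mul, WG.mul_f, rho_ex] at h3 ⊢
    exact h3

lemma exists_supp (u : E A) : ∃ M : ℤ, ∀ r : ℤ, M < |r| → (rho 0 u).f r = 1 := by
  obtain ⟨M, _, h⟩ := exists_good u
  exact ⟨M, fun r hr => h.zero_out r hr⟩

lemma exists_lim (u : E A) (r : ℤ) : ∃ B : ℕ, ∀ n : ℕ, B < n → (rho n u).f r = (rho 0 u).f r := by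
  obtain ⟨M, hM, h⟩ := exists_good u
  have h' := h.mono (le_max_left M |r|)
  refine ⟨(2 * max M |r|).toNat, ?_⟩
  intro n hn
  have hn' : 2 * max M |r| < n := by
    have := Int.self_le_toNat (2 * max M |r|)
    have h3 : ((2 * max M |r|).toNat : ℤ) < (n : ℤ) := by exact_mod_cast hn
    linarith
  exact (h' n (Or.inr hn') r).1 r (le_max_right _ _) (by simp)

/-! ### The basic relators -/

/-- The commutator of a moved lamp with a lamp. -/
def cr (a b : A) (k : ℤ) : E A :=
  (tt ^ (-k) * hh a * tt ^ k) * hh b * (tt ^ (-k) * hh a * tt ^ k)⁻¹ * (hh b)⁻¹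

lemma rho_tt_zpow (n : ℕ) (k : ℤ) : rho (A := A) n (tt ^ k) = ⟨k, fun _ => 1⟩ := by
  have hnat : ∀ k : ℕ, rho (A := A) n (tt ^ k) = ⟨k, fun _ => 1⟩ := by
    intro k
    induction k with
    | zero => simp; rfl
    | succ k ih =>
      rw [pow_succ, map_mul, ih, rho_tt]
      apply WG.ext
      · simp
      · funext r; simp
  cases k with
  | ofNat k => simpa using hnat k
  | negSucc k =>
    rw [zpow_negSucc, map_inv, hnat]
    apply WG.ext
    · simp [Int.negSucc_eq]
    · funext r; simp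

lemma rho_moved (n : ℕ) (a : A) (k : ℤ) :
    rho n (tt ^ (-k) * hh a * tt ^ k) = ⟨0, fun r => if (n : ℤ) ∣ r + k then a else 1⟩ := by
  rw [map_mul, map_mul, rho_tt_zpow, rho_tt_zpow, rho_hh]
  apply WG.ext
  · simp
  · funext r; simp

lemma rho_cr (n : ℕ) (a b : A) (k : ℤ) :
    rho n (cr a b k) = ⟨0, fun r =>
      (if (n : ℤ) ∣ r + k then a else 1) * (if (n : ℤ) ∣ r then b else 1) *
        (if (n : ℤ) ∣ r + k then a else 1)⁻¹ * (if (n : ℤ) ∣ r then b else 1)⁻¹⟩ := by
  unfold cr
  rw [map_mul, map_mul, map_mul, map_inv, map_inv, rho_moved, rho_hh]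
  apply WG.ext
  · simp
  · funext r; simp

lemma rho_cr_one (n : ℕ) (a b : A) (k : ℤ) (hk : ¬ (n : ℤ) ∣ k) : rho n (cr a b k) = 1 := by
  rw [rho_cr]
  apply WG.ext
  · rfl
  · funext r
    by_cases h : (n : ℤ) ∣ r
    · have h' : ¬ (n : ℤ) ∣ r + k := by
        intro h2
        exact hk ((dvd_add_right h).mp h2)
      simp [h, h']
    · simp [h]

lemma rho_cr_congr (n : ℕ) (a b : A) (k k' : ℤ) (hk : (n : ℤ) ∣ k ↔ (n : ℤ) ∣ k') :
    rho n (cr a b k) = rho n (cr a b k') := by
  by_cases h : (n : ℤ) ∣ k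
  · have h' := hk.mp h
    rw [rho_cr, rho_cr]
    apply WG.ext
    · rfl
    · funext r
      have e1 : (n : ℤ) ∣ r + k ↔ (n : ℤ) ∣ r := (dvd_add_left h)
      have e2 : (n : ℤ) ∣ r + k' ↔ (n : ℤ) ∣ r := (dvd_add_left h')
      simp [e1, e2]
  · rw [rho_cr_one n a b k h, rho_cr_one n a b k' (fun h' => h (hk.mpr h'))]

end Pool.LP
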