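import Pool.Agent.LP.Tree

/-!
# Kernel of the action, self-similarity and contraction
-/

set_option autoImplicit false

namespace Pool.LP

variable {A : Type} [Group A]

/-! ### All words are encoded -/

lemma exists_dig2 (x : ZMod 2) : ∃ c : ℤ, 0 ≤ c ∧ c < 2 ∧ ((c : ℤ) : ZMod 2) = x := by
  refine ⟨x.val, by positivity, ?_, ?_⟩
  · exact_mod_cast ZMod.val_lt x
  · simp

lemma exists_dig3 (x : ZMod 3) : ∃ c : ℤ, 0 ≤ c ∧ c < 3 ∧ ((c : ℤ) : ZMod 3) = x := by
  refine ⟨x.val, by positivity, ?_, ?_⟩
  · exact_mod_cast ZMod.val_lt x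
  · simp

omit [Group A] in
lemma dig_add (b : Bool) (c s : ℤ) : dig (A := A) b (c + (bs b : ℤ) * s) = dig b c := by
  cases b
  · simp only [dig, bs]
    push_cast
    have : (2 : ZMod 2) = 0 := rfl
    simp [this]
  · simp only [dig, bs]
    push_cast
    have : (3 : ZMod 3) = 0 := rfl
    simp [this]

omit [Group A] in
/-- prepend a digit -/
lemma enc_cons (b : Bool) (l : List Bool) (c s : ℤ) (h0 : 0 ≤ c) (h1 : c < bs b) (o : Option A) :
    enc (b :: l) (c + (bs b : ℤ) * s) o = dig b c :: enc l s o := by
  have hb : ((bs b : ℕ) : ℤ) ≠ 0 := by exact_mod_cast (bs_pos b).ne'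
  simp only [enc]
  rw [dig_add, Int.add_mul_ediv_left _ _ hb, Int.ediv_eq_zero_of_lt h0 h1, zero_add]

omit [Group A] in
lemma cover (w : List (X A)) :
    (∃ (l : List Bool) (r : ℤ), 0 ≤ r ∧ r < nb l ∧ w = enc l r none ∧ l.length = w.length) ∨
    (∃ (l : List Bool) (r : ℤ) (a : A) (w' : List (X A)), w = enc l r (some a) ++ w') := by
  induction w with
  | nil => exact Or.inl ⟨[], 0, le_rfl, by simp [nb], rfl, rfl⟩
  | cons x w ih =>
    rcases x with x | x | ⟨z, a⟩
    · obtain ⟨c, h0, h1, hc⟩ := exists_dig2 x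
      have hx : (Sum.inl x : X A) = dig false c := by simp [dig, hc]
      rcases ih with ⟨l, r, hr0, hr1, hw, hl⟩ | ⟨l, r, a, w', hw⟩
      · left
        refine ⟨false :: l, c + (bs false : ℤ) * r, ?_, ?_, ?_, by simp [hl]⟩
        · simp only [bs, Bool.false_eq_true, if_false]; push_cast; linarith
        · simp only [nb, bs, Bool.false_eq_true, if_false]; push_cast; linarith
        · rw [enc_cons false l c r h0 (by simpa [bs] using h1), ← hw, hx]
      · right
        refine ⟨false :: l, c + (bs false : ℤ) * r, a, w', ?_⟩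
        rw [enc_cons false l c r h0 (by simpa [bs] using h1), List.cons_append, ← hw, hx]
    · obtain ⟨c, h0, h1, hc⟩ := exists_dig3 x
      have hx : (Sum.inr (Sum.inl x) : X A) = dig true c := by simp [dig, hc]
      rcases ih with ⟨l, r, hr0, hr1, hw, hl⟩ | ⟨l, r, a, w', hw⟩
      · left
        refine ⟨true :: l, c + (bs true : ℤ) * r, ?_, ?_, ?_, by simp [hl]⟩
        · simp only [bs, if_true]; push_cast; linarith
        · simp only [nb, bs, if_true]; push_cast; linarith
        · rw [enc_cons true l c r h0 (by simpa [bs] using h1), ← hw, hx]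
      · right
        refine ⟨true :: l, c + (bs true : ℤ) * r, a, w', ?_⟩
        rw [enc_cons true l c r h0 (by simpa [bs] using h1), List.cons_append, ← hw, hx]
    · right
      refine ⟨[], (z.val : ℤ), a, w, ?_⟩
      simp [enc]

omit [Group A] in
lemma dig_inj (b : Bool) (r r' : ℤ) (h : dig (A := A) b r = dig b r') :
    ((bs b : ℕ) : ℤ) ∣ r - r' := by
  cases b
  · have h1 : (r : ZMod 2) = (r' : ZMod 2) := by simpa [dig] using h
    have h2 := (ZMod.intCast_eq_intCast_iff_dvd_sub r' r 2).mp h1.symm
    simpa [bs] using h2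
  · have h1 : (r : ZMod 3) = (r' : ZMod 3) := by simpa [dig] using h
    have h2 := (ZMod.intCast_eq_intCast_iff_dvd_sub r' r 3).mp h1.symm
    simpa [bs] using h2

omit [Group A] in
lemma enc_inj (l : List Bool) (r r' : ℤ) (a a' : A)
    (h : enc l r (some a) = enc l r' (some a')) :
    a = a' ∧ ((6 * nb l : ℕ) : ℤ) ∣ r - r' := by
  induction l generalizing r r' with
  | nil =>
    have h1 : ((r : ZMod 6) = r') ∧ a = a' := by simpa [enc] using h
    refine ⟨h1.2, ?_⟩
    have h2 := (ZMod.intCast_eq_intCast_iff_dvd_sub r' r 6).mp h1.1.symm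
    simpa [nb] using h2
  | cons b l ih =>
    simp only [enc, List.cons.injEq] at h
    obtain ⟨h1, h2⟩ := h
    obtain ⟨h3, h4⟩ := ih _ _ h2
    refine ⟨h3, ?_⟩
    have hb : (0 : ℤ) < ((bs b : ℕ) : ℤ) := by exact_mod_cast bs_pos b
    have h5 : r % (bs b : ℤ) = r' % (bs b : ℤ) :=
      (show r' % (bs b : ℤ) = r % (bs b : ℤ) from Int.modEq_iff_dvd.mpr (dig_inj b r r' h1)).symm
    have h6 : r - r' = (bs b : ℤ) * (r / (bs b : ℤ) - r' / (bs b : ℤ)) := by
      have e1 := Int.emod_add_mul_ediv r (bs b : ℤ)
      have e2 := Int.emod_add_mul_ediv r' (bs b : ℤ)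
      linear_combination -e1 + e2 + h5
    rw [h6]
    have e : ((6 * nb (b :: l) : ℕ) : ℤ) = (bs b : ℤ) * ((6 * nb l : ℕ) : ℤ) := by
      simp only [nb]; push_cast; ring
    rw [e]
    exact mul_dvd_mul_left _ h4

/-! ### The kernel -/

lemma eps_eq_of_rho (u v : E A) (he : ex u = ex v)
    (h : ∀ l : List Bool, ∀ r, (rho (6 * nb l) u).f r = (rho (6 * nb l) v).f r) :
    eps u = eps v := by
  apply Equiv.ext
  intro w
  rcases cover w with ⟨l, r, _, _, hw, _⟩ | ⟨l, r, a, w', hw⟩
  · rw [hw, eps_enc_none, eps_enc_none, he]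
  · rw [hw, eps_enc, eps_enc, he, h]

lemma eps_eq_one_iff (u : E A) : eps u = 1 ↔ Ker A u := by
  constructor
  · intro h
    have key : ∀ l : List Bool, (∀ r, (rho (6 * nb l) u).f r = 1) ∧
        ((6 * nb l : ℕ) : ℤ) ∣ ex u := by
      intro l
      have h1 : ∀ r, enc l (r + ex u) (some ((rho (6 * nb l) u).f r * 1)) = enc l r (some 1) := by
        intro r
        have := eps_enc u l r 1 []
        rw [h, Equiv.Perm.one_apply, List.append_nil, List.append_nil] at this
        exact this.symm
      refine ⟨fun r => ?_, ?_⟩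
      · have := (enc_inj l _ _ _ _ (h1 r)).1
        rwa [mul_one] at this
      · have := (enc_inj l _ _ _ _ (h1 0)).2
        simpa using this
    have he : ex u = 0 := by
      by_contra hne
      have h2 := (key (List.replicate (ex u).natAbs false)).2
      have h3 := Int.le_of_dvd (abs_pos.mpr hne) ((dvd_abs _ _).mpr h2)
      have h4 := two_pow_le_nb (List.replicate (ex u).natAbs false)
      rw [List.length_replicate] at h4
      have h5 := Nat.lt_two_pow_self (n := (ex u).natAbs)
      rw [Int.abs_eq_natAbs] at h3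
      have h6 : 6 * nb (List.replicate (ex u).natAbs false) ≤ (ex u).natAbs := by exact_mod_cast h3
      omega
    intro i j
    have h7 := nb_replicate i j
    have h8 : 6 * 2 ^ i * 3 ^ j = 6 * nb (List.replicate i false ++ List.replicate j true) := by
      rw [h7]; ring
    rw [h8]
    apply WG.ext
    · rw [rho_ex, he]; rfl
    · funext r
      exact (key _).1 r
  · intro h
    rw [← map_one eps]
    refine eps_eq_of_rho u 1 ?_ ?_
    · have := congrArg WG.e h.rho_zero
      simpa [ex] using this
    · intro l r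
      obtain ⟨i, j, hij⟩ := nb_form l
      have e : 6 * nb l = 6 * 2 ^ i * 3 ^ j := by rw [hij]; ring
      rw [e, h i j, map_one]

/-! ### Self-similarity -/

/-- The group. -/
def G0 (A : Type) [Group A] : Subgroup (Equiv.Perm (List (X A))) := (eps (A := A)).range

lemma eps_mem (u : E A) : eps u ∈ G0 A := ⟨u, rfl⟩

lemma eps_nil (u : E A) : eps u [] = [] := eps_enc_none u [] 0

lemma selfsim (u : E A) : ∀ x : X A, ∃ y : X A, ∃ h ∈ G0 A, ∀ w, eps u (x :: w) = y :: h w := by
  have one : (1 : Equiv.Perm (List (X A))) ∈ G0 A := one_mem _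
  have htt : (tPerm : Equiv.Perm (List (X A))) ∈ G0 A := by rw [← eps_tt]; exact eps_mem _
  have hhh : ∀ c : A, (hPerm c : Equiv.Perm (List (X A))) ∈ G0 A := by
    intro c; rw [← eps_hh]; exact eps_mem _
  have hlamp : ∀ c : A, ∀ x : X A, ∃ y : X A, ∃ h ∈ G0 A, ∀ w, hPerm c (x :: w) = y :: h w := by
    intro c x
    rcases x with x | x | ⟨z, a⟩
    · by_cases h : x = 0
      · exact ⟨d2 x, hPerm c, hhh c, fun w => by
          show hFun c (d2 x :: w) = _
          simp only [hFun, if_pos h]; rfl⟩
      · exact ⟨d2 x, 1, one, fun w => by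
          show hFun c (d2 x :: w) = _
          simp only [hFun, if_neg h]; rfl⟩
    · by_cases h : x = 0
      · exact ⟨d3 x, hPerm c, hhh c, fun w => by
          show hFun c (d3 x :: w) = _
          simp only [hFun, if_pos h]; rfl⟩
      · exact ⟨d3 x, 1, one, fun w => by
          show hFun c (d3 x :: w) = _
          simp only [hFun, if_neg h]; rfl⟩
    · exact ⟨d6 z (if z = 0 then c * a else a), 1, one, fun w => rfl⟩
  induction u using E_ind with
  | h1 => intro x; exact ⟨x, 1, one, fun w => by simp⟩
  | ht =>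
    intro x
    rw [eps_tt]
    rcases x with x | x | ⟨z, a⟩
    · by_cases h : x = -1
      · exact ⟨d2 (x + 1), tPerm, htt, fun w => by
          show tFun (d2 x :: w) = _
          simp only [tFun, if_pos h]; rfl⟩
      · exact ⟨d2 (x + 1), 1, one, fun w => by
          show tFun (d2 x :: w) = _
          simp only [tFun, if_neg h]; rfl⟩
    · by_cases h : x = -1
      · exact ⟨d3 (x + 1), tPerm, htt, fun w => by
          show tFun (d3 x :: w) = _
          simp only [tFun, if_pos h]; rfl⟩
      · exact ⟨d3 (x + 1), 1, one, fun w => by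
          show tFun (d3 x :: w) = _
          simp only [tFun, if_neg h]; rfl⟩
    · exact ⟨d6 (z + 1) a, 1, one, fun w => rfl⟩
  | hti =>
    intro x
    rw [map_inv, eps_tt]
    rcases x with x | x | ⟨z, a⟩
    · by_cases h : x = 0
      · exact ⟨d2 (x - 1), tPerm⁻¹, inv_mem htt, fun w => by
          show tInv (d2 x :: w) = _
          simp only [tInv, if_pos h]; rfl⟩
      · exact ⟨d2 (x - 1), 1, one, fun w => by
          show tInv (d2 x :: w) = _
          simp only [tInv, if_neg h]; rfl⟩
    · by_cases h : x = 0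
      · exact ⟨d3 (x - 1), tPerm⁻¹, inv_mem htt, fun w => by
          show tInv (d3 x :: w) = _
          simp only [tInv, if_pos h]; rfl⟩
      · exact ⟨d3 (x - 1), 1, one, fun w => by
          show tInv (d3 x :: w) = _
          simp only [tInv, if_neg h]; rfl⟩
    · exact ⟨d6 (z - 1) a, 1, one, fun w => rfl⟩
  | hh' c => rw [eps_hh]; exact hlamp c
  | hhi c =>
    have e : (eps (hh c)⁻¹ : Equiv.Perm (List (X A))) = hPerm c⁻¹ := by
      rw [map_inv, eps_hh]
      apply Equiv.ext
      intro w
      rfl
    rw [e]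
    exact hlamp c⁻¹
  | hm u v hu hv =>
    intro x
    obtain ⟨y, h, hh1, hh2⟩ := hv x
    obtain ⟨z, h', hh3, hh4⟩ := hu y
    refine ⟨z, h' * h, mul_mem hh3 hh1, fun w => ?_⟩
    rw [map_mul, Equiv.Perm.mul_apply, hh2, hh4, Equiv.Perm.mul_apply]

/-! ### Contraction -/

omit [Group A] in
lemma enc_append (l l' : List Bool) (x r : ℤ) (h0 : 0 ≤ x) (h1 : x < nb l) (o : Option A) :
    enc (l ++ l') (x + (nb l : ℤ) * r) o = enc l x none ++ enc l' r o := by
  induction l generalizing x with
  | nil =>
    have : x = 0 := by simp only [nb] at h1; push_cast at h1; linarith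
    subst this
    simp [nb, enc]
  | cons b l ih =>
    have hb : (0 : ℤ) < ((bs b : ℕ) : ℤ) := by exact_mod_cast bs_pos b
    have e1 := Int.emod_add_mul_ediv x (bs b : ℤ)
    have e2 := Int.emod_lt_of_pos x hb
    have e3 := Int.emod_nonneg x hb.ne'
    have e4 : x = x % (bs b : ℤ) + (bs b : ℤ) * (x / (bs b : ℤ)) := e1.symm
    have e5 : 0 ≤ x / (bs b : ℤ) := Int.ediv_nonneg h0 hb.le
    have e6 : x / (bs b : ℤ) < nb l := by
      apply Int.ediv_lt_of_lt_mul hb
      simp only [nb] at h1
      push_cast at h1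
      linarith
    have e7 : x + (nb (b :: l) : ℤ) * r
        = x % (bs b : ℤ) + (bs b : ℤ) * (x / (bs b : ℤ) + (nb l : ℤ) * r) := by
      simp only [nb]
      push_cast
      linear_combination e4
    rw [List.cons_append, e7, enc_cons b _ _ _ e3 e2, ih _ e5 e6]
    conv_rhs => rw [e4, enc_cons b _ _ _ e3 e2]
    rfl

/-- The words giving the nucleus. -/
def nuc (c : ℤ) (a a' : A) : E A := tt ^ c * (hh a * (tt ^ (-(1 : ℤ)) * hh a' * tt ^ (1 : ℤ)))

lemma ex_nuc (c : ℤ) (a a' : A) : ex (nuc c a a') = c := by
  unfold nuc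
  simp [ex_zpow]

lemma rho_nuc (n : ℕ) (c : ℤ) (a a' : A) (r : ℤ) :
    (rho n (nuc c a a')).f r
      = (if (n : ℤ) ∣ r then a else 1) * (if (n : ℤ) ∣ r + 1 then a' else 1) := by
  unfold nuc
  rw [map_mul, map_mul, rho_moved, rho_hh, rho_tt_zpow]
  simp

lemma contr (u : E A) : ∃ k : ℕ, ∀ v : List (X A), k ≤ v.length → ∀ h ∈ G0 A,
    (∀ w, eps u (v ++ w) = eps u v ++ h w) →
    ∃ (c : ℤ) (a a' : A), -1 ≤ c ∧ c ≤ 1 ∧ h = eps (nuc c a a') := by
  obtain ⟨M, hM0, hM⟩ := exists_good u
  refine ⟨(M + |ex u|).toNat, ?_⟩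
  intro v hv h hh hw
  obtain ⟨u', rfl⟩ := hh
  rcases cover v with ⟨l, x, hx0, hx1, hvl, hlen⟩ | ⟨l, r, a, w', hvl⟩
  · -- the word has only unlabelled digits
    have hbig : M + |ex u| < nb l := by
      have h1 := two_pow_le_nb l
      have h2 := Nat.lt_two_pow_self (n := l.length)
      have h3 := Int.self_le_toNat (M + |ex u|)
      have h4 : (M + |ex u|).toNat < nb l := by
        rw [← hlen] at hv
        omega
      have h5 : (((M + |ex u|).toNat : ℕ) : ℤ) < nb l := by exact_mod_cast h4
      linarith
    have habs := abs_nonneg (ex u)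
    have hab1 := neg_abs_le (ex u)
    have hab2 := le_abs_self (ex u)
    have hnb : (0 : ℤ) < nb l := by linarith
    set c : ℤ := (x + ex u) / (nb l : ℤ) with hc
    set y : ℤ := (x + ex u) % (nb l : ℤ) with hy
    have hxy : x + ex u = y + (nb l : ℤ) * c := (Int.emod_add_mul_ediv _ _).symm
    have hy0 : 0 ≤ y := Int.emod_nonneg _ hnb.ne'
    have hy1 : y < nb l := Int.emod_lt_of_pos _ hnb
    have hc1 : -1 ≤ c := by
      by_contra hlt
      push Not at hlt
      have : c ≤ -2 := by omega
      nlinarith
    have hc2 : c ≤ 1 := by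
      by_contra hlt
      push Not at hlt
      have : 2 ≤ c := by omega
      nlinarith
    have hv1 : eps u v = enc l y none := by
      rw [hvl, eps_enc_none, hxy]
      have := enc_append l [] y c hy0 hy1 (none : Option A)
      simpa [enc] using this
    -- action of the section
    have hnone : ∀ (l' : List Bool) (r : ℤ), eps u' (enc l' r (none : Option A))
        = enc l' (r + c) none := by
      intro l' r
      have h1 := hw (enc l' r none)
      rw [hv1] at h1
      rw [hvl, ← enc_append l l' x r hx0 hx1, eps_enc_none] at h1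
      have e : x + (nb l : ℤ) * r + ex u = y + (nb l : ℤ) * (r + c) := by
        linear_combination hxy
      rw [e, enc_append l l' y (r + c) hy0 hy1] at h1
      exact (List.append_cancel_left h1).symm
    have hsome : ∀ (l' : List Bool) (r : ℤ) (a : A) (w' : List (X A)),
        eps u' (enc l' r (some a) ++ w')
        = enc l' (r + c) (some ((rho (6 * nb (l ++ l')) u).f (x + (nb l : ℤ) * r) * a)) ++ w' := by
      intro l' r a w'
      have h1 := hw (enc l' r (some a) ++ w')
      rw [hv1] at h1
      rw [hvl, ← List.append_assoc, ← enc_append l l' x r hx0 hx1, eps_enc] at h1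
      have e : x + (nb l : ℤ) * r + ex u = y + (nb l : ℤ) * (r + c) := by
        linear_combination hxy
      rw [e, enc_append l l' y (r + c) hy0 hy1, List.append_assoc] at h1
      exact (List.append_cancel_left h1).symm
    refine ⟨c, (rho 0 u).f x, (rho 0 u).f (x - nb l), hc1, hc2, ?_⟩
    apply Equiv.ext
    intro w
    rcases cover w with ⟨l', r, _, _, hwl, _⟩ | ⟨l', r, a, w', hwl⟩
    · rw [hwl, hnone, eps_enc_none, ex_nuc]
    · rw [hwl, hsome, eps_enc, ex_nuc, rho_nuc]
      -- compare the lamps
      have hn' : 0 < nb l' := nb_pos l'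
      have hN : ((6 * nb (l ++ l') : ℕ) : ℤ) = (nb l : ℤ) * ((6 * nb l' : ℕ) : ℤ) := by
        rw [nb_append]; push_cast; ring
      have hN6 : 6 * (nb l : ℤ) ≤ ((6 * nb (l ++ l') : ℕ) : ℤ) := by
        rw [hN]
        push_cast
        have : (1 : ℤ) ≤ nb l' := by exact_mod_cast hn'
        nlinarith
      have hg2 := (hM.mono (by linarith : M ≤ 2 * (nb l : ℤ))) (6 * nb (l ++ l'))
        (Or.inr (by linarith)) (x + (nb l : ℤ) * r)
      have hg := hM (6 * nb (l ++ l')) (Or.inr (by linarith)) (x + (nb l : ℤ) * r)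
      have hlamp : (rho (6 * nb (l ++ l')) u).f (x + (nb l : ℤ) * r)
          = (if ((6 * nb l' : ℕ) : ℤ) ∣ r then (rho 0 u).f x else 1) *
            (if ((6 * nb l' : ℕ) : ℤ) ∣ r + 1 then (rho 0 u).f (x - nb l) else 1) := by
        by_cases hr : ((6 * nb l' : ℕ) : ℤ) ∣ r
        · have hr1 : ¬ ((6 * nb l' : ℕ) : ℤ) ∣ r + 1 := by
            intro hr1
            have h1 : ((6 * nb l' : ℕ) : ℤ) ∣ 1 := (dvd_add_right hr).mp hr1
            have h2 := Int.le_of_dvd one_pos h1
            push_cast at h2
            have : (1 : ℤ) ≤ nb l' := by exact_mod_cast hn'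
            linarith
          rw [if_pos hr, if_neg hr1, mul_one]
          refine hg2.1 x ?_ ?_
          · rw [abs_of_nonneg hx0]; linarith
          · have e : x + (nb l : ℤ) * r - x = (nb l : ℤ) * r := by ring
            rw [e, hN]
            exact mul_dvd_mul_left _ hr
        · rw [if_neg hr, one_mul]
          by_cases hr1 : ((6 * nb l' : ℕ) : ℤ) ∣ r + 1
          · rw [if_pos hr1]
            refine hg2.1 (x - nb l) ?_ ?_
            · rw [abs_le]; constructor <;> linarith
            · have e : x + (nb l : ℤ) * r - (x - nb l) = (nb l : ℤ) * (r + 1) := by ring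
              rw [e, hN]
              exact mul_dvd_mul_left _ hr1
          · rw [if_neg hr1]
            refine hg.2 ?_
            intro k hk hd
            have hk' := abs_le.mp hk
            have h1 : (nb l : ℤ) ∣ x - k := by
              have h2 : (nb l : ℤ) ∣ x + (nb l : ℤ) * r - k :=
                dvd_trans (by rw [hN]; exact dvd_mul_right _ _) hd
              have e : x - k = (x + (nb l : ℤ) * r - k) - (nb l : ℤ) * r := by ring
              rw [e]
              exact dvd_sub h2 (dvd_mul_right _ _)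
            obtain ⟨s, hs⟩ := h1
            have hs0 : -1 < s := by
              by_contra hlt
              push Not at hlt
              nlinarith
            have hs2 : s < 2 := by
              by_contra hlt
              push Not at hlt
              nlinarith
            have : s = 0 ∨ s = 1 := by omega
            rcases this with rfl | rfl
            · apply hr
              have e : x + (nb l : ℤ) * r - k = (nb l : ℤ) * r := by linear_combination hs
              rw [e, hN] at hd
              exact (mul_dvd_mul_iff_left hnb.ne').mp hd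
            · apply hr1
              have e : x + (nb l : ℤ) * r - k = (nb l : ℤ) * (r + 1) := by linear_combination hs
              rw [e, hN] at hd
              exact (mul_dvd_mul_iff_left hnb.ne').mp hd
      rw [hlamp]
  · -- the word contains a labelled digit
    refine ⟨0, 1, 1, by norm_num, by norm_num, ?_⟩
    have h1 : eps (nuc 0 (1 : A) 1) = 1 := by
      rw [eps_eq_one_iff]
      intro i j
      apply WG.ext
      · rw [rho_ex, ex_nuc]; rfl
      · funext r
        rw [rho_nuc]
        simp
    rw [h1]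
    apply Equiv.ext
    intro w
    have h2 := hw w
    rw [hvl, List.append_assoc, eps_enc, eps_enc, List.append_assoc] at h2
    have h3 := List.append_cancel_left (List.append_cancel_left h2)
    rw [Equiv.Perm.one_apply]
    exact h3.symm

end Pool.LP
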