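import Pool.Agent.LP.Quot

/-!
# Endomorphisms compatible with the kernel of the lamp homomorphisms
-/

set_option autoImplicit false

namespace Pool.LP

variable {A : Type} [Group A]

/-- Triviality modulo all `n = 6 * 2 ^ a * 3 ^ b`. -/
def Ker (A : Type) [Group A] (u : E A) : Prop := ∀ i j : ℕ, rho (6 * 2 ^ i * 3 ^ j) u = 1

lemma unif {ι : Type} [Finite ι] {P : ι → ℕ → Prop} (h : ∀ i, ∃ B : ℕ, ∀ p : ℕ, B < p → P i p) :
    ∃ B : ℕ, ∀ i, ∀ p : ℕ, B < p → P i p := by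
  classical
  have := Fintype.ofFinite ι
  choose B hB using h
  refine ⟨Finset.univ.sup B, fun i p hp => hB i p (lt_of_le_of_lt ?_ hp)⟩
  exact Finset.le_sup (Finset.mem_univ i)

lemma Ker.rho_zero {u : E A} (h : Ker A u) : rho 0 u = 1 := by
  apply WG.ext
  · have := congrArg WG.e (h 0 0)
    rw [rho_ex] at this
    exact this
  · funext r
    obtain ⟨B, hB⟩ := exists_lim u r
    have hlt : B < 6 * 2 ^ B * 3 ^ 0 := by
      have := Nat.lt_two_pow_self (n := B)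
      omega
    rw [← hB _ hlt, h B 0]

lemma rho_rel1 (n : ℕ) (a b : A) : rho n (hh a * hh b * (hh (a * b))⁻¹) = 1 := by
  rw [map_mul, map_mul, map_inv, rho_hh, rho_hh, rho_hh]
  apply WG.ext
  · simp
  · funext r
    by_cases hr : (n : ℤ) ∣ r <;> simp [hr]

lemma ker_rel1 (a b : A) : Ker A (hh a * hh b * (hh (a * b))⁻¹) :=
  fun _ _ => rho_rel1 _ a b

/-- Two maps onto a noncommutative group do not commute elementwise, even after a conjugation. -/
lemma noncomm (hA : ∃ a b : A, a * b ≠ b * a) (θ θ' : A →* A) (h : Function.Surjective θ)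
    (h' : Function.Surjective θ') (g : A) :
    ¬ ∀ a b : A, (g⁻¹ * θ a * g) * θ' b * (g⁻¹ * θ a * g)⁻¹ * (θ' b)⁻¹ = 1 := by
  intro hall
  obtain ⟨x, y, hxy⟩ := hA
  obtain ⟨a, ha⟩ := h (g * x * g⁻¹)
  obtain ⟨b, hb⟩ := h' y
  have h1 := comm_of_cr (hall a b)
  rw [ha, hb] at h1
  apply hxy
  have e : g⁻¹ * (g * x * g⁻¹) * g = x := by group
  rw [e] at h1
  exact h1

lemma two_not_dvd_three_pow (j : ℕ) : ¬ (2 : ℤ) ∣ 3 ^ j := by
  intro h
  have h1 : ((2 : ℕ) : ℤ) ∣ 3 := Int.Prime.dvd_pow' Nat.prime_two h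
  norm_num at h1

lemma three_not_dvd_two_pow (j : ℕ) : ¬ (3 : ℤ) ∣ 2 ^ j := by
  intro h
  have h1 : ((3 : ℕ) : ℤ) ∣ 2 := Int.Prime.dvd_pow' Nat.prime_three h
  norm_num at h1

lemma ker_cr_of_not_dvd (a b : A) (k : ℤ) (h : ¬ (6 : ℤ) ∣ k) : Ker A (cr a b k) := by
  intro i j
  refine rho_cr_one _ a b k ?_
  intro hd
  apply h
  refine dvd_trans ?_ hd
  push_cast
  rw [mul_assoc]
  exact dvd_mul_right 6 _

lemma isCoprime_of_not {m : ℤ} (h2 : ¬ (2 : ℤ) ∣ m) (h3 : ¬ (3 : ℤ) ∣ m) (i j : ℕ) :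
    IsCoprime m ((6 * 2 ^ i * 3 ^ j : ℕ) : ℤ) := by
  have c2 : IsCoprime m 2 :=
    ((Prime.coprime_iff_not_dvd Int.prime_two).mpr h2).symm
  have c3 : IsCoprime m 3 :=
    ((Prime.coprime_iff_not_dvd Int.prime_three).mpr h3).symm
  have e : ((6 * 2 ^ i * 3 ^ j : ℕ) : ℤ) = (2 * 3) * 2 ^ i * 3 ^ j := by push_cast; ring
  rw [e]
  exact ((c2.mul_right c3).mul_right (c2.pow_right)).mul_right (c3.pow_right)

section

variable (ω : E A →* E A)

omit [Group A] in
lemma omega_cr (a b : A) (k : ℤ) :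
    ω (cr a b k) = (ω tt ^ (-k) * ω (hh a) * ω tt ^ k) * ω (hh b) *
      (ω tt ^ (-k) * ω (hh a) * ω tt ^ k)⁻¹ * (ω (hh b))⁻¹ := by
  unfold cr
  simp only [map_mul, map_inv, map_zpow]

lemma rho_omega_cr (n : ℕ) (a b : A) (k r : ℤ) (ha : ex (ω (hh a)) = 0)
    (hb : ex (ω (hh b)) = 0) :
    (rho n (ω (cr a b k))).f r =
      (((rho n (ω tt ^ k)).f r)⁻¹ * (rho n (ω (hh a))).f (r + k * ex (ω tt)) *
        (rho n (ω tt ^ k)).f r) * (rho n (ω (hh b))).f r *
      (((rho n (ω tt ^ k)).f r)⁻¹ * (rho n (ω (hh a))).f (r + k * ex (ω tt)) *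
        (rho n (ω tt ^ k)).f r)⁻¹ * ((rho n (ω (hh b))).f r)⁻¹ := by
  have ea : (rho n (ω (hh a))).e = 0 := by rw [rho_ex, ha]
  have eb : (rho n (ω (hh b))).e = 0 := by rw [rho_ex, hb]
  have eX : rho n (ω tt ^ (-k) * ω (hh a) * ω tt ^ k)
      = (rho n (ω tt ^ k))⁻¹ * rho n (ω (hh a)) * rho n (ω tt ^ k) := by
    rw [map_mul, map_mul, zpow_neg, map_inv]
  have hX0 := WG.conj_e (rho n (ω (hh a))) (rho n (ω tt ^ k)) ea
  have hXf := WG.conj_f (rho n (ω (hh a))) (rho n (ω tt ^ k)) ea r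
  rw [omega_cr, map_mul, map_mul, map_mul, map_inv, map_inv, eX,
    WG.comm_f _ _ hX0 eb r, hXf, rho_ex, ex_zpow]

variable (hω : ∀ v, Ker A v → Ker A (ω v))

include hω

lemma H_mul (n : ℕ) (hn : n = 0 ∨ ∃ i j : ℕ, n = 6 * 2 ^ i * 3 ^ j) (a b : A) :
    rho n (ω (hh a)) * rho n (ω (hh b)) = rho n (ω (hh (a * b))) := by
  have h := hω _ (ker_rel1 a b)
  have h1 : rho n (ω (hh a * hh b * (hh (a * b))⁻¹)) = 1 := by
    rcases hn with hn | ⟨i, j, hn⟩
    · subst hn; exact h.rho_zero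
    · subst hn; exact h i j
  rw [map_mul, map_mul, map_inv, map_mul, map_mul, map_inv, mul_inv_eq_one] at h1
  exact h1

lemma ex_H [Finite A] (a : A) : ex (ω (hh a)) = 0 := by
  let g : A →* WG A := MonoidHom.mk' (fun a => rho 0 (ω (hh a)))
    (fun a b => (H_mul ω hω 0 (Or.inl rfl) a b).symm)
  have h1 : g a ^ Nat.card A = 1 := by
    rw [← map_pow, pow_card_eq_one', map_one]
  have h2 := congrArg WG.e h1
  rw [WG.pow_e, WG.one_e] at h2
  have h3 : (Nat.card A : ℤ) ≠ 0 := by exact_mod_cast Nat.card_pos.ne'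
  exact (mul_eq_zero.mp h2).resolve_left h3

/-- The lamp at `r` of the image of a lamp, as an endomorphism of `A`. -/
def theta [Finite A] (r : ℤ) : A →* A := MonoidHom.mk' (fun a => (rho 0 (ω (hh a))).f r)
  (fun a b => by
    have h := congrFun (congrArg WG.f (H_mul ω hω 0 (Or.inl rfl) a b)) r
    rw [WG.mul_f, rho_ex, ex_H ω hω b, add_zero] at h
    exact h.symm)

lemma theta_apply [Finite A] (r : ℤ) (a : A) : theta ω hω r a = (rho 0 (ω (hh a))).f r := rfl

lemma theta_dichotomy [Finite A] [IsSimpleGroup A] (r : ℤ) :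
    (∀ a, theta ω hω r a = 1) ∨ Function.Surjective (theta ω hω r) := by
  rcases IsSimpleGroup.eq_bot_or_eq_top_of_normal (theta ω hω r).ker inferInstance with h | h
  · right
    have hi : Function.Injective (theta ω hω r) := (MonoidHom.ker_eq_bot_iff _).mp h
    exact Finite.surjective_of_injective hi
  · left
    intro a
    have : a ∈ (theta ω hω r).ker := by rw [h]; trivial
    exact this

lemma no_period [Finite A] (hA : ∃ a b : A, a * b ≠ b * a) (r : ℤ)
    (hr : Function.Surjective (theta ω hω r)) :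
    ∃ B : ℕ, ∀ i j : ℕ, B < 6 * 2 ^ i * 3 ^ j → ∀ k : ℤ, (∀ a b : A, Ker A (cr a b k)) →
      ((6 * 2 ^ i * 3 ^ j : ℕ) : ℤ) ∣ k * ex (ω tt) → False := by
  obtain ⟨B, hB⟩ := unif (fun a : A => exists_lim (ω (hh a)) r)
  refine ⟨B, ?_⟩
  intro i j hn k hk hd
  apply noncomm hA (theta ω hω r) (theta ω hω r) hr hr
    ((rho (6 * 2 ^ i * 3 ^ j) (ω tt ^ k)).f r)
  intro a b
  have h1 := hω _ (hk a b) i j
  have h2 := congrFun (congrArg WG.f h1) r
  rw [rho_omega_cr ω _ a b k r (ex_H ω hω a) (ex_H ω hω b)] at h2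
  rw [rho_periodic (6 * 2 ^ i * 3 ^ j) (ω (hh a)) (r + k * ex (ω tt)) r (by simpa using hd)] at h2
  rw [hB a _ hn, hB b _ hn] at h2
  exact h2

lemma ex_odd [Finite A] (hA : ∃ a b : A, a * b ≠ b * a) (r : ℤ)
    (hr : Function.Surjective (theta ω hω r)) : ¬ (2 : ℤ) ∣ ex (ω tt) := by
  rintro ⟨m', hm'⟩
  obtain ⟨B, hB⟩ := no_period ω hω hA r hr
  have hlt : B < 6 * 2 ^ 0 * 3 ^ B := by
    have : B < 3 ^ B := Nat.lt_pow_self (by norm_num)
    omega
  refine hB 0 B hlt (3 ^ (B + 1)) ?_ ?_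
  · intro a b
    apply ker_cr_of_not_dvd
    intro h
    exact two_not_dvd_three_pow (B + 1) (dvd_trans (by norm_num) h)
  · rw [hm']
    refine ⟨m', ?_⟩
    push_cast
    ring

lemma ex_three [Finite A] (hA : ∃ a b : A, a * b ≠ b * a) (r : ℤ)
    (hr : Function.Surjective (theta ω hω r)) : ¬ (3 : ℤ) ∣ ex (ω tt) := by
  rintro ⟨m', hm'⟩
  obtain ⟨B, hB⟩ := no_period ω hω hA r hr
  have hlt : B < 6 * 2 ^ B * 3 ^ 0 := by
    have := Nat.lt_two_pow_self (n := B)
    omega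
  refine hB B 0 hlt (2 ^ (B + 1)) ?_ ?_
  · intro a b
    apply ker_cr_of_not_dvd
    intro h
    exact three_not_dvd_two_pow (B + 1) (dvd_trans (by norm_num) h)
  · rw [hm']
    refine ⟨m', ?_⟩
    push_cast
    ring

lemma unique_lamp [Finite A] (hA : ∃ a b : A, a * b ≠ b * a) (r s : ℤ)
    (hr : Function.Surjective (theta ω hω r)) (hs : Function.Surjective (theta ω hω s)) :
    r = s := by
  by_contra hne
  have h2 := ex_odd ω hω hA r hr
  have h3 := ex_three ω hω hA r hr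
  -- support bound
  have hM : ∃ M : ℕ, ∀ a : A, ∀ k : ℤ, (M : ℤ) < |k| → (rho 0 (ω (hh a))).f k = 1 := by
    have : ∀ a : A, ∃ M : ℕ, ∀ p : ℕ, M < p → ∀ k : ℤ, (p : ℤ) < |k| →
        (rho 0 (ω (hh a))).f k = 1 := by
      intro a
      obtain ⟨M, hM⟩ := exists_supp (ω (hh a))
      refine ⟨M.toNat, fun p hp k hk => hM k ?_⟩
      have h1 := Int.self_le_toNat M
      have h2 : ((M.toNat : ℕ) : ℤ) < p := by exact_mod_cast hp
      linarith
    obtain ⟨B, hB⟩ := unif this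
    exact ⟨B + 1, fun a k hk => hB a (B + 1) (Nat.lt_succ_self B) k hk⟩
  obtain ⟨M, hM⟩ := hM
  -- the multiplier
  set u : ℤ := 6 * ((M : ℤ) + |s|) + 1 with hu
  have hsn := abs_nonneg s
  have hupos : 0 < u := by positivity
  set t : ℤ := s + u * (r - s) with ht
  have htM : (M : ℤ) < |t| := by
    have h4 : u ≤ |u * (r - s)| := by
      rw [abs_mul, abs_of_pos hupos]
      have : 1 ≤ |r - s| := Int.one_le_abs (sub_ne_zero.mpr hne)
      nlinarith
    have h5 : |u * (r - s)| ≤ |t| + |s| := by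
      have : u * (r - s) = t - s := by rw [ht]; ring
      rw [this]
      exact abs_sub t s
    have h6 : (0 : ℤ) ≤ M := Int.natCast_nonneg M
    linarith
  obtain ⟨B1, hB1⟩ := unif (fun a : A => exists_lim (ω (hh a)) r)
  obtain ⟨B2, hB2⟩ := unif (fun a : A => exists_lim (ω (hh a)) s)
  obtain ⟨B3, hB3⟩ := unif (fun a : A => exists_lim (ω (hh a)) t)
  set c : ℕ := max B1 (max B2 B3) with hc
  set n : ℕ := 6 * 2 ^ c * 3 ^ 0 with hn
  have hlt : c < n := by
    have := Nat.lt_two_pow_self (n := c)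
    omega
  have hl1 : B1 < n := lt_of_le_of_lt (le_max_left _ _) hlt
  have hl2 : B2 < n := lt_of_le_of_lt ((le_max_left _ _).trans (le_max_right _ _)) hlt
  have hl3 : B3 < n := lt_of_le_of_lt ((le_max_right _ _).trans (le_max_right _ _)) hlt
  obtain ⟨x, y, hxy⟩ := isCoprime_of_not h2 h3 c 0
  rw [← hn] at hxy
  set k : ℤ := x * (r - s) with hk
  -- k * m = (r - s) modulo n
  have hkm : (n : ℤ) ∣ (r - s) - k * ex (ω tt) := by
    refine ⟨(r - s) * y, ?_⟩
    have : r - s = (r - s) * (x * ex (ω tt) + y * n) := by rw [hxy, mul_one]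
    rw [hk]
    linear_combination this
  -- the multiplier is prime to 6
  have hu2 : ¬ (2 : ℤ) ∣ u := by omega
  have hu3 : ¬ (3 : ℤ) ∣ u := by omega
  have hker : ∀ a b : A, Ker A (cr a b k * (cr a b (k * u))⁻¹) := by
    intro a b i j
    rw [map_mul, map_inv, mul_inv_eq_one]
    refine rho_cr_congr _ a b _ _ ?_
    constructor
    · intro h; exact Dvd.dvd.mul_right h u
    · intro h
      exact (isCoprime_of_not hu2 hu3 i j).symm.dvd_of_dvd_mul_right h
  apply noncomm hA (theta ω hω r) (theta ω hω s) hr hs ((rho n (ω tt ^ k)).f s)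
  intro a b
  have h4 := hω _ (hker a b) c 0
  rw [← hn, map_mul, map_mul, map_inv, map_inv, mul_inv_eq_one] at h4
  have h5 := congrFun (congrArg WG.f h4) s
  rw [rho_omega_cr ω _ a b k s (ex_H ω hω a) (ex_H ω hω b),
    rho_omega_cr ω _ a b (k * u) s (ex_H ω hω a) (ex_H ω hω b)] at h5
  have e1 : (rho n (ω (hh a))).f (s + k * ex (ω tt)) = theta ω hω r a := by
    rw [theta_apply, ← hB1 a n hl1]
    refine rho_periodic n _ _ _ ?_
    have e : s + k * ex (ω tt) - r = -((r - s) - k * ex (ω tt)) := by ring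
    rw [e]
    exact (dvd_neg).mpr hkm
  have e2 : (rho n (ω (hh a))).f (s + k * u * ex (ω tt)) = 1 := by
    rw [← hM a t htM, ← hB3 a n hl3]
    refine rho_periodic n _ _ _ ?_
    have e : s + k * u * ex (ω tt) - t = -(((r - s) - k * ex (ω tt)) * u) := by rw [ht]; ring
    rw [e]
    exact (dvd_neg).mpr (Dvd.dvd.mul_right hkm u)
  have e3 : (rho n (ω (hh b))).f s = theta ω hω s b := by
    rw [theta_apply, ← hB2 b n hl2]
  rw [e1, e2, e3] at h5
  rw [h5]
  group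

end

end Pool.LP
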