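import Pool.Agent.LP.Endo

/-!
# A group with this kernel has no finite L-presentation
-/

set_option autoImplicit false

namespace Pool.LP

variable {A : Type} [Group A]

/-- The elements with zero shift and with lamps only in `[-M, M]`. -/
def Wsub (A : Type) [Group A] (M : ℤ) : Subgroup (WG A) where
  carrier := {x | x.e = 0 ∧ ∀ r : ℤ, M < |r| → x.f r = 1}
  mul_mem' := by
    rintro x y ⟨hx, hx'⟩ ⟨hy, hy'⟩
    refine ⟨by simp [hx, hy], fun r hr => ?_⟩
    simp [hy, hx' r hr, hy' r hr]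
  one_mem' := ⟨rfl, fun _ _ => rfl⟩
  inv_mem' := by
    rintro x ⟨hx, hx'⟩
    refine ⟨by simp [hx], fun r hr => ?_⟩
    simp [hx, hx' r hr]

instance Wsub_finite [Finite A] (M : ℤ) : Finite (Wsub A M) := by
  let g : Wsub A M → (Finset.Icc (-M) M → A) := fun x i => x.1.f i.1
  refine Finite.of_injective g ?_
  rintro ⟨x, hx, hx'⟩ ⟨y, hy, hy'⟩ hxy
  apply Subtype.ext
  apply WG.ext
  · exact hx.trans hy.symm
  · funext r
    by_cases hr : M < |r|
    · rw [hx' r hr, hy' r hr]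
    · push Not at hr
      have hmem : r ∈ Finset.Icc (-M) M := by
        rw [Finset.mem_Icc]; exact abs_le.mp hr
      exact congrFun hxy ⟨r, hmem⟩

section

variable (ω : E A →* E A) (hω : ∀ v, Ker A v → Ker A (ω v))

include hω

/-- The property of `ω` that we need. -/
def Claim (ω : E A →* E A) (Mo : ℕ) : Prop :=
  ∃ B : ℕ, ∀ p : ℕ, B < p → Nat.Coprime p Mo → ∀ v : E A, Ker A v → v ∈ K A p → ω v ∈ K A p

lemma claim_zero [Finite A] (h0 : ex (ω tt) = 0) : Claim ω 1 := by
  classical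
  -- all images have zero shift and bounded lamps
  have hgen : ∀ o : Option A, ∃ M : ℕ, ∀ p : ℕ, M < p → rho 0 (ω (FreeGroup.of o)) ∈ Wsub A p := by
    intro o
    obtain ⟨M, hM⟩ := exists_supp (ω (FreeGroup.of o))
    refine ⟨M.toNat, fun p hp => ⟨?_, fun r hr => hM r ?_⟩⟩
    · cases o with
      | none => exact h0
      | some a => exact ex_H ω hω a
    · have h1 := Int.self_le_toNat M
      have h2 : ((M.toNat : ℕ) : ℤ) < p := by exact_mod_cast hp
      linarith
  obtain ⟨M, hM⟩ := unif hgen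
  have hM' := fun o => hM o (M + 1) (Nat.lt_succ_self M)
  have hall : ∀ v : E A, rho 0 (ω v) ∈ Wsub A ((M + 1 : ℕ) : ℤ) := by
    intro v
    induction v using FreeGroup.induction_on with
    | C1 => simp [one_mem]
    | of x => exact hM' x
    | inv_of x hx => rw [map_inv, map_inv]; exact inv_mem hx
    | mul x y hx hy => rw [map_mul, map_mul]; exact mul_mem hx hy
  -- the range
  let Γ : Subgroup (WG A) := ((rho 0).comp ω).range
  have hΓ : Γ ≤ Wsub A ((M + 1 : ℕ) : ℤ) := by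
    rintro x ⟨v, rfl⟩
    exact hall v
  have : Finite Γ := Finite.of_injective (Subgroup.inclusion hΓ) (Subgroup.inclusion_injective hΓ)
  -- lifts
  have hlift : ∀ x : Γ, ∃ u : E A, rho 0 u = x.1 := by
    rintro ⟨x, v, rfl⟩
    exact ⟨ω v, rfl⟩
  choose s hs using hlift
  obtain ⟨B1, hB1⟩ := unif (fun xy : Γ × Γ => ev_of_rho_eq (s (xy.1 * xy.2)) (s xy.1 * s xy.2)
    (by rw [map_mul, hs, hs, hs]; rfl))
  let ωΓ : E A →* Γ := ((rho 0).comp ω).rangeRestrict
  obtain ⟨B2, hB2⟩ := unif (fun o : Option A => ev_of_rho_eq (s (ωΓ (FreeGroup.of o)))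
    (ω (FreeGroup.of o)) (by rw [hs]; rfl))
  refine ⟨max B1 B2, ?_⟩
  intro p hp _ v hv _
  have hp1 := lt_of_le_of_lt (le_max_left B1 B2) hp
  have hp2 := lt_of_le_of_lt (le_max_right B1 B2) hp
  let σ : Γ →* E A ⧸ K A p := MonoidHom.mk' (fun x => q p (s x)) (fun x y => by
    have := hB1 (x, y) p hp1
    rw [this, map_mul])
  have heq : (q p).comp ω = σ.comp ωΓ := by
    apply FreeGroup.ext_hom
    intro o
    exact (hB2 o p hp2).symm
  have h1 : ωΓ v = 1 := by
    apply Subtype.ext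
    exact (hω v hv).rho_zero
  rw [← q_eq_one]
  have h2 := DFunLike.congr_fun heq v
  rw [MonoidHom.comp_apply, MonoidHom.comp_apply, h1, map_one] at h2
  exact h2

lemma claim_nolamp [Finite A] (h : ∀ r a, theta ω hω r a = 1) : Claim ω 1 := by
  obtain ⟨B, hB⟩ := unif (fun a : A => ev_of_rho (ω (hh a)) (by
    apply WG.ext
    · exact ex_H ω hω a
    · funext r; exact h r a))
  refine ⟨B, ?_⟩
  intro p hp _ v hv _
  let χ : E A →* E A ⧸ K A p :=
    (zpowersHom _ (q p (ω tt))).comp (WG.eHom.comp (rho 0))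
  have heq : (q p).comp ω = χ := by
    apply FreeGroup.ext_hom
    intro o
    cases o with
    | none =>
      show q p (ω tt) = zpowersHom _ (q p (ω tt)) (WG.eHom (rho 0 tt))
      rw [rho_tt]
      show _ = zpowersHom _ (q p (ω tt)) (Multiplicative.ofAdd 1)
      simp
    | some a =>
      show q p (ω (hh a)) = zpowersHom _ (q p (ω tt)) (WG.eHom (rho 0 (hh a)))
      rw [rho_hh, q_eq_one.mpr (hB a p hp)]
      show _ = zpowersHom _ (q p (ω tt)) (Multiplicative.ofAdd 0)
      simp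
  have h2 := DFunLike.congr_fun heq v
  rw [← q_eq_one]
  show ((q p).comp ω) v = 1
  rw [h2]
  show zpowersHom _ (q p (ω tt)) (WG.eHom (rho 0 v)) = 1
  rw [hv.rho_zero, map_one, map_one]

lemma claim_lamp [Finite A] (r : ℤ)
    (h : ∀ s, s ≠ r → ∀ a, theta ω hω s a = 1) : Claim ω (ex (ω tt)).natAbs := by
  have hform : ∀ a : A, rho 0 (ω (hh a)) =
      rho 0 (tt ^ r * hh (theta ω hω r a) * (tt ^ r)⁻¹) := by
    intro a
    have e : (tt ^ r * hh (theta ω hω r a) * (tt ^ r)⁻¹ : E A)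
        = tt ^ (-(-r)) * hh (theta ω hω r a) * tt ^ (-r) := by
      rw [neg_neg, zpow_neg]
    rw [e, rho_moved]
    apply WG.ext
    · exact ex_H ω hω a
    · funext s
      simp only [Nat.cast_zero, zero_dvd_iff]
      by_cases hs : s = r
      · subst hs
        simp [theta_apply]
      · have : ¬ (s + -r = 0) := fun h' => hs (by linarith)
        rw [if_neg this]
        exact h s hs a
  obtain ⟨B, hB⟩ := unif (fun a : A => ev_of_rho_eq _ _ (hform a))
  refine ⟨B, ?_⟩
  intro p hp hcop v _ hvK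
  have hle : K A p ≤ (K A p).comap ω := by
    refine Subgroup.normalClosure_le_normal ?_
    rintro x (⟨a, b, rfl⟩ | ⟨a, b, k, hk, rfl⟩)
    · show ω _ ∈ K A p
      rw [← q_eq_one]
      simp only [map_mul, map_inv, hB _ p hp]
      rw [← q_hh_mul]
      group
    · show ω _ ∈ K A p
      rw [← q_eq_one, omega_cr]
      set T := ω tt with hT
      -- the conjugator
      have hg : ¬ (p : ℤ) ∣ ex ((tt ^ r)⁻¹ * T ^ k * tt ^ r) := by
        have e : ex ((tt ^ r)⁻¹ * T ^ k * tt ^ r) = k * ex T := by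
          rw [ex_mul, ex_mul, ex_inv, ex_zpow, ex_zpow, ex_tt]; ring
        rw [e]
        intro hd
        apply hk
        have hc : IsCoprime (p : ℤ) (ex T) := by
          rw [Int.isCoprime_iff_nat_coprime]
          simpa using hcop
        exact hc.dvd_of_dvd_mul_right hd
      have hcomm := comm_far p _ hg (theta ω hω r a) (theta ω hω r b)
      have h1 := hcomm.eq
      simp only [map_mul, map_inv, map_zpow, hB _ p hp] at h1 ⊢
      set t := q p (tt : E A) with ht
      set x := q p (hh (theta ω hω r a)) with hx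
      set y := q p (hh (theta ω hω r b)) with hy
      set S := q p T with hS
      have h2 : (S ^ k)⁻¹ * (t ^ r * x * (t ^ r)⁻¹) * S ^ k * (t ^ r * y * (t ^ r)⁻¹)
          = (t ^ r * y * (t ^ r)⁻¹) * ((S ^ k)⁻¹ * (t ^ r * x * (t ^ r)⁻¹) * S ^ k) := by
        have e1 : (S ^ k)⁻¹ * (t ^ r * x * (t ^ r)⁻¹) * S ^ k * (t ^ r * y * (t ^ r)⁻¹)
            = t ^ r * (((t ^ r)⁻¹ * S ^ k * t ^ r)⁻¹ * x * ((t ^ r)⁻¹ * S ^ k * t ^ r) * y)
              * (t ^ r)⁻¹ := by group
        have e2 : (t ^ r * y * (t ^ r)⁻¹) * ((S ^ k)⁻¹ * (t ^ r * x * (t ^ r)⁻¹) * S ^ k)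
            = t ^ r * (y * (((t ^ r)⁻¹ * S ^ k * t ^ r)⁻¹ * x * ((t ^ r)⁻¹ * S ^ k * t ^ r)))
              * (t ^ r)⁻¹ := by group
        rw [e1, e2, h1]
      rw [zpow_neg]
      rw [mul_inv_eq_one, mul_inv_eq_iff_eq_mul]
      exact h2
  exact hle hvK

lemma exists_claim [Finite A] [IsSimpleGroup A] (hA : ∃ a b : A, a * b ≠ b * a) :
    ∃ Mo : ℕ, 0 < Mo ∧ Claim ω Mo := by
  by_cases h0 : ex (ω tt) = 0
  · exact ⟨1, one_pos, claim_zero ω hω h0⟩
  by_cases h1 : ∀ r a, theta ω hω r a = 1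
  · exact ⟨1, one_pos, claim_nolamp ω hω h1⟩
  · push Not at h1
    obtain ⟨r, a, hra⟩ := h1
    have hr : Function.Surjective (theta ω hω r) :=
      (theta_dichotomy ω hω r).resolve_left (fun h => hra (h a))
    refine ⟨(ex (ω tt)).natAbs, Int.natAbs_pos.mpr h0, claim_lamp ω hω r ?_⟩
    intro s hs
    rcases theta_dichotomy ω hω s with h | h
    · exact h
    · exact absurd (unique_lamp ω hω hA s r h hr) hs

end

/-- Main theorem of this file. -/
theorem no_lpres [Finite A] [IsSimpleGroup A] (hA : ∃ a b : A, a * b ≠ b * a)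
    {G : Type} [Group G] (ε : E A →* G) (hs : Function.Surjective ε)
    (hk : ∀ u, ε u = 1 ↔ Ker A u) (m : ℕ) (R : Finset (FreeGroup (Fin m)))
    (Φ : Finset (Monoid.End (FreeGroup (Fin m))))
    (iso : G ≃* PresentedGroup {x : FreeGroup (Fin m) |
        ∃ φ ∈ Submonoid.closure (Φ : Set (Monoid.End (FreeGroup (Fin m)))), ∃ r ∈ R, x = φ r}) :
    False := by
  classical
  set S : Set (FreeGroup (Fin m)) := {x : FreeGroup (Fin m) |
        ∃ φ ∈ Submonoid.closure (Φ : Set (Monoid.End (FreeGroup (Fin m)))), ∃ r ∈ R, x = φ r}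
    with hS
  let κ : FreeGroup (Fin m) →* G := iso.symm.toMonoidHom.comp (PresentedGroup.mk S)
  have hκs : Function.Surjective κ :=
    iso.symm.surjective.comp (PresentedGroup.mk_surjective S)
  have hκ : ∀ u, κ u = 1 ↔ u ∈ Subgroup.normalClosure S := by
    intro u
    show iso.symm (PresentedGroup.mk S u) = 1 ↔ _
    rw [MulEquiv.map_eq_one_iff]
    exact QuotientGroup.eq_one_iff u
  have hΦ : ∀ φ ∈ Φ, ∀ u, κ u = 1 → κ (φ u) = 1 := by
    intro φ hφ u hu
    rw [hκ] at hu ⊢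
    have hle : Subgroup.normalClosure S ≤ (Subgroup.normalClosure S).comap φ := by
      refine Subgroup.normalClosure_le_normal ?_
      rintro x ⟨ψ, hψ, r, hr, rfl⟩
      refine Subgroup.subset_normalClosure ⟨φ * ψ, ?_, r, hr, rfl⟩
      exact mul_mem (Submonoid.subset_closure hφ) hψ
    exact hle hu
  -- lifts of the generators
  choose lift hlift using hs
  let π : FreeGroup (Fin m) →* E A := FreeGroup.lift (fun i => lift (κ (FreeGroup.of i)))
  have hπ : ∀ u, ε (π u) = κ u := by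
    intro u
    have : ε.comp π = κ := by
      apply FreeGroup.ext_hom
      intro i
      simp [π, hlift]
    exact DFunLike.congr_fun this u
  choose liftk hliftk using hκs
  let σ : E A →* FreeGroup (Fin m) := FreeGroup.lift (fun o => liftk (ε (FreeGroup.of o)))
  have hσ : ∀ v, κ (σ v) = ε v := by
    intro v
    have : κ.comp σ = ε := by
      apply FreeGroup.ext_hom
      intro i
      simp [σ, hliftk]
    exact DFunLike.congr_fun this v
  -- elements with trivial image in G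
  have hev : ∀ u v : E A, ε u = ε v → ∃ B : ℕ, ∀ p : ℕ, B < p → q p u = q p v := by
    intro u v huv
    apply ev_of_rho_eq
    have : ε (u * v⁻¹) = 1 := by rw [map_mul, map_inv, huv, mul_inv_cancel]
    have h := ((hk _).mp this).rho_zero
    rw [map_mul, map_inv, mul_inv_eq_one] at h
    exact h
  -- one endomorphism
  have hone : ∀ φ : Φ, ∃ Mo : ℕ, 0 < Mo ∧ ∃ B : ℕ, ∀ p : ℕ, B < p → Nat.Coprime p Mo →
      ∀ u, κ u = 1 → π u ∈ K A p → π (φ.1 u) ∈ K A p := by
    rintro ⟨φ, hφ⟩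
    let ω : E A →* E A := π.comp (MonoidHom.comp φ σ)
    have hωε : ∀ v, ε (ω v) = κ (φ (σ v)) := fun v => hπ _
    have hω : ∀ v, Ker A v → Ker A (ω v) := by
      intro v hv
      rw [← hk] at hv ⊢
      rw [hωε]
      exact hΦ φ hφ _ (by rw [hσ, hv])
    obtain ⟨Mo, hMo, B1, hB1⟩ := exists_claim ω hω hA
    obtain ⟨B2, hB2⟩ := unif (fun i : Fin m => hev (π (φ (FreeGroup.of i)))
      (ω (π (FreeGroup.of i))) (by
        rw [hωε, hπ]
        have h1 : κ ((FreeGroup.of i) * (σ (π (FreeGroup.of i)))⁻¹) = 1 := by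
          rw [map_mul, map_inv, hσ, hπ, mul_inv_cancel]
        have h2 := hΦ φ hφ _ h1
        rw [map_mul, map_inv, map_mul, map_inv, mul_inv_eq_one] at h2
        exact h2))
    refine ⟨Mo, hMo, max B1 B2, ?_⟩
    intro p hp hcop u hu huK
    have hp1 := lt_of_le_of_lt (le_max_left B1 B2) hp
    have hp2 := lt_of_le_of_lt (le_max_right B1 B2) hp
    have heq : (q p).comp (π.comp φ) = (q p).comp (ω.comp π) := by
      apply FreeGroup.ext_hom
      intro i
      exact hB2 i p hp2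
    have h3 : q p (π (φ u)) = q p (ω (π u)) := DFunLike.congr_fun heq u
    show π (φ u) ∈ K A p
    rw [← q_eq_one, h3, q_eq_one]
    refine hB1 p hp1 hcop _ ?_ huK
    rw [← hk, hπ, hu]
  choose Mo hMo B hB using hone
  -- relators
  obtain ⟨BR, hBR⟩ := unif (fun r : R => (hev (π r.1) 1 (by
    rw [hπ, map_one, hκ]
    exact Subgroup.subset_normalClosure ⟨1, one_mem _, r.1, r.2, rfl⟩)))
  -- the two special elements
  obtain ⟨a, b, hab⟩ := hA
  obtain ⟨B1, hB1⟩ := hev (π (σ tt)) tt (by rw [hπ, hσ])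
  obtain ⟨B2, hB2⟩ := hev (π (σ (hh a))) (hh a) (by rw [hπ, hσ])
  obtain ⟨B3, hB3⟩ := hev (π (σ (hh b))) (hh b) (by rw [hπ, hσ])
  -- the choice of p
  set Mt : ℕ := ∏ φ : Φ, Mo φ with hMt
  have hMt0 : 0 < Mt := Finset.prod_pos (fun φ _ => hMo φ)
  set Bt : ℕ := Finset.univ.sup B + BR + B1 + B2 + B3 with hBt
  set p : ℕ := 6 * Mt * (Bt + 1) + 1 with hp
  have hpB : Bt < p := by
    have : Bt + 1 ≤ 6 * Mt * (Bt + 1) := by
      have : 1 ≤ 6 * Mt := by omega
      nlinarith
    exact lt_of_lt_of_le (Nat.lt_succ_self Bt) (this.trans (Nat.le_succ _))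
  have hpM : Nat.Coprime p (6 * Mt) := by
    rw [hp, Nat.coprime_iff_gcd_eq_one]
    simp
  have hpφ : ∀ φ : Φ, Nat.Coprime p (Mo φ) := by
    intro φ
    exact Nat.Coprime.coprime_dvd_right
      (dvd_trans (Finset.dvd_prod_of_mem Mo (Finset.mem_univ φ)) (Dvd.intro_left 6 rfl)) hpM
  have hpBφ : ∀ φ : Φ, B φ < p := by
    intro φ
    have := Finset.le_sup (f := B) (Finset.mem_univ φ)
    omega
  -- the invariant subgroup
  let N : Subgroup (FreeGroup (Fin m)) := κ.ker ⊓ (K A p).comap π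
  have hNnormal : N.Normal := inferInstance
  have hNφ : ∀ φ ∈ Submonoid.closure (Φ : Set (Monoid.End (FreeGroup (Fin m)))),
      ∀ u ∈ N, φ u ∈ N := by
    intro φ hφ
    induction hφ using Submonoid.closure_induction with
    | mem φ hφ =>
      rintro u ⟨hu1, hu2⟩
      exact ⟨hΦ φ hφ u hu1, hB ⟨φ, hφ⟩ p (hpBφ _) (hpφ _) u hu1 hu2⟩
    | one => intro u hu; exact hu
    | mul φ ψ _ _ h1 h2 => intro u hu; exact h1 _ (h2 u hu)
  have hSN : S ⊆ N := by
    rintro x ⟨φ, hφ, r, hr, rfl⟩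
    refine hNφ φ hφ r ⟨?_, ?_⟩
    · show κ r = 1
      rw [hκ]
      exact Subgroup.subset_normalClosure ⟨1, one_mem _, r, hr, rfl⟩
    · show π r ∈ K A p
      rw [← q_eq_one, hBR ⟨r, hr⟩ p (by omega), map_one]
  have hle : Subgroup.normalClosure S ≤ N := Subgroup.normalClosure_le_normal hSN
  -- the relator at distance p
  have h6 : ¬ (6 : ℤ) ∣ (p : ℤ) := by
    rw [hp]
    rintro ⟨c, hc⟩
    push_cast at hc
    have : 6 * (c - (Mt : ℤ) * ((Bt : ℤ) + 1)) = 1 := by linear_combination -hc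
    omega
  have hrel : σ (cr a b (p : ℤ)) ∈ N := by
    apply hle
    rw [← hκ, hσ, hk]
    exact ker_cr_of_not_dvd a b _ h6
  have h7 : q p (cr a b (p : ℤ)) = 1 := by
    have h8 : q p (π (σ (cr a b (p : ℤ)))) = 1 := q_eq_one.mpr hrel.2
    have e1 := hB1 p (by omega)
    have e2 := hB2 p (by omega)
    have e3 := hB3 p (by omega)
    unfold cr at h8 ⊢
    simp only [map_mul, map_inv, map_zpow, e1, e2, e3] at h8 ⊢
    exact h8
  have h9 : rho p (cr a b (p : ℤ)) = 1 := K_le_ker p (q_eq_one.mp h7)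
  rw [rho_cr] at h9
  have h10 := congrFun (congrArg WG.f h9) 0
  simp only [zero_add, dvd_refl, if_true, dvd_zero, WG.one_f] at h10
  exact hab (comm_of_cr h10)

end Pool.LP
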