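import Pool.Agent.LP.Contr
import Pool.Agent.LP.NoL

/-!
# The contracting group without finite L-presentation, on words in `Fin d`
-/

set_option autoImplicit false

namespace Pool.LP

section

variable {A : Type} [Group A]

/-- Relabelling of words. -/
def listEquiv {α β : Type} (e : α ≃ β) : List α ≃ List β where
  toFun := List.map e
  invFun := List.map e.symm
  left_inv w := by simp [List.map_map]
  right_inv w := by simp [List.map_map]

/-- The action on words in `Fin d`. -/
def epsF {d : ℕ} (e : X A ≃ Fin d) : E A →* Equiv.Perm (List (Fin d)) :=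
  ((listEquiv e).permCongrHom.toMonoidHom).comp eps

lemma epsF_apply {d : ℕ} (e : X A ≃ Fin d) (u : E A) (w : List (Fin d)) :
    epsF e u w = List.map e (eps u (List.map e.symm w)) := rfl

lemma epsF_eq_one_iff {d : ℕ} (e : X A ≃ Fin d) (u : E A) : epsF e u = 1 ↔ Ker A u := by
  rw [← eps_eq_one_iff]
  exact MulEquiv.map_eq_one_iff (listEquiv e).permCongrHom

theorem exists_group [Finite A] [IsSimpleGroup A] (hA : ∃ a b : A, a * b ≠ b * a) :
    ∃ (d : ℕ) (G : Subgroup (Equiv.Perm (List (Fin d)))),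
    Group.FG G ∧
    (∀ g ∈ G, g [] = []) ∧
    (∀ g ∈ G, ∀ x : Fin d, ∃ y : Fin d, ∃ h ∈ G, ∀ w : List (Fin d), g (x :: w) = y :: h w) ∧
    (∃ N : Finset (Equiv.Perm (List (Fin d))), ∀ g ∈ G, ∃ k : ℕ, ∀ v : List (Fin d),
        k ≤ v.length → ∀ h ∈ G, (∀ w : List (Fin d), g (v ++ w) = g v ++ h w) → h ∈ N) ∧
    ∀ (m : ℕ) (R : Finset (FreeGroup (Fin m))) (Φ : Finset (Monoid.End (FreeGroup (Fin m)))),
      ¬ Nonempty (G ≃* PresentedGroup {x : FreeGroup (Fin m) |
        ∃ φ ∈ Submonoid.closure (Φ : Set (Monoid.End (FreeGroup (Fin m)))), ∃ r ∈ R, x = φ r}) := by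
  classical
  have hfin : Finite (X A) := inferInstance
  obtain ⟨d, ⟨e⟩⟩ := Finite.exists_equiv_fin (X A)
  refine ⟨d, (epsF e).range, ?_, ?_, ?_, ?_, ?_⟩
  · -- finitely generated
    have h1 : Group.FG (E A) := by
      refine ⟨⟨(Set.finite_range (FreeGroup.of : Option A → E A)).toFinset, ?_⟩⟩
      rw [Set.Finite.coe_toFinset, FreeGroup.closure_range_of]
    exact Group.fg_of_surjective (MonoidHom.rangeRestrict_surjective (epsF e))
  · rintro g ⟨u, rfl⟩
    rw [epsF_apply]
    simp [eps_nil]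
  · rintro g ⟨u, rfl⟩ x
    obtain ⟨y, h, ⟨u', rfl⟩, hw⟩ := selfsim u (e.symm x)
    refine ⟨e y, epsF e u', ⟨u', rfl⟩, fun w => ?_⟩
    rw [epsF_apply, epsF_apply, List.map_cons, hw, List.map_cons]
  · have hfin2 : (Set.range (fun t : Fin 3 × A × A =>
        epsF e (nuc ((t.1.val : ℤ) - 1) t.2.1 t.2.2))).Finite := Set.finite_range _
    refine ⟨hfin2.toFinset, ?_⟩
    rintro g ⟨u, rfl⟩
    obtain ⟨k, hk⟩ := contr u
    refine ⟨k, ?_⟩
    rintro v hv h ⟨u', rfl⟩ hw
    obtain ⟨c, a, a', hc1, hc2, hc⟩ := hk (List.map e.symm v) (by simpa using hv) (eps u')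
      ⟨u', rfl⟩ (fun w => by
        have h1 := hw (List.map e w)
        rw [epsF_apply, epsF_apply, epsF_apply, List.map_append] at h1
        have h2 : List.map e.symm (List.map e w) = w := by simp [List.map_map]
        rw [h2, ← List.map_append] at h1
        exact List.map_injective_iff.mpr e.injective h1)
    rw [Set.Finite.mem_toFinset]
    refine ⟨(⟨(c + 1).toNat, by omega⟩, a, a'), ?_⟩
    have e1 : (((c + 1).toNat : ℕ) : ℤ) - 1 = c := by omega
    show epsF e (nuc ((((c + 1).toNat : ℕ) : ℤ) - 1) a a') = epsF e u'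
    rw [e1]
    show (listEquiv e).permCongrHom (eps (nuc c a a')) = (listEquiv e).permCongrHom (eps u')
    rw [hc]
  · rintro m R Φ ⟨iso⟩
    refine no_lpres hA (epsF e).rangeRestrict (MonoidHom.rangeRestrict_surjective (epsF e)) ?_
      m R Φ iso
    intro u
    rw [← epsF_eq_one_iff e]
    constructor
    · intro h; exact congrArg Subtype.val h
    · intro h; exact Subtype.ext h

end

lemma alt_five_noncomm : ∃ a b : alternatingGroup (Fin 5), a * b ≠ b * a := by
  by_contra hcon
  push Not at hcon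
  let s : Equiv.Perm (Fin 5) := Equiv.swap 0 1 * Equiv.swap 1 2
  let t : Equiv.Perm (Fin 5) := Equiv.swap 0 1 * Equiv.swap 1 3
  have hs : s ∈ alternatingGroup (Fin 5) := by
    rw [Equiv.Perm.mem_alternatingGroup]; decide
  have ht : t ∈ alternatingGroup (Fin 5) := by
    rw [Equiv.Perm.mem_alternatingGroup]; decide
  have h := hcon ⟨s, hs⟩ ⟨t, ht⟩
  have h1 : s * t = t * s := congrArg Subtype.val h
  have h2 := DFunLike.congr_fun h1 0
  revert h2
  decide

end Pool.LP
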