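import Pool.Agent.LP.Basic

/-!
# The quotients of `E A` in which lamps at distance not divisible by `p` commute
-/

set_option autoImplicit false

namespace Pool.LP

variable {A : Type} [Group A]

/-- The relators of `A`, and commutation of lamps at all distances not divisible by `p`. -/
def Rel (A : Type) [Group A] (p : ℕ) : Set (E A) :=
  {x | ∃ a b : A, x = hh a * hh b * (hh (a * b))⁻¹} ∪
    {x | ∃ (a b : A) (k : ℤ), ¬ (p : ℤ) ∣ k ∧ x = cr a b k}

/-- The normal closure of `Rel A p`. -/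
def K (A : Type) [Group A] (p : ℕ) : Subgroup (E A) := Subgroup.normalClosure (Rel A p)

instance (p : ℕ) : (K A p).Normal := Subgroup.normalClosure_normal

/-- The quotient map. -/
def q (p : ℕ) : E A →* E A ⧸ K A p := QuotientGroup.mk' (K A p)

lemma q_eq_one {p : ℕ} {u : E A} : q p u = 1 ↔ u ∈ K A p := by
  simp [q]

lemma q_surj (p : ℕ) : Function.Surjective (q (A := A) p) := QuotientGroup.mk'_surjective _

lemma rel_rho (n p : ℕ) (h : n = p) (x : E A) (hx : x ∈ Rel A p) : rho n x = 1 := by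
  rcases hx with ⟨a, b, rfl⟩ | ⟨a, b, k, hk, rfl⟩
  · rw [map_mul, map_mul, map_inv, rho_hh, rho_hh, rho_hh]
    apply WG.ext
    · simp
    · funext r
      by_cases hr : (n : ℤ) ∣ r <;> simp [hr]
  · subst h
    exact rho_cr_one n a b k hk

lemma K_le_ker (p : ℕ) : K A p ≤ (rho (A := A) p).ker := by
  refine Subgroup.normalClosure_le_normal ?_
  intro x hx
  exact rel_rho p p rfl x hx

lemma q_hh_mul (p : ℕ) (a b : A) : q p (hh a) * q p (hh b) = q p (hh (a * b)) := by
  have h : hh a * hh b * (hh (a * b))⁻¹ ∈ K A p :=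
    Subgroup.subset_normalClosure (Or.inl ⟨a, b, rfl⟩)
  rw [← q_eq_one, map_mul, map_inv, map_mul, mul_inv_eq_one] at h
  exact h

lemma q_hh_one (p : ℕ) : q p (hh (1 : A)) = 1 := by
  have := q_hh_mul p (1 : A) 1
  rw [mul_one] at this
  exact mul_eq_left.mp this

lemma q_hh_inv (p : ℕ) (a : A) : (q p (hh a))⁻¹ = q p (hh a⁻¹) := by
  rw [inv_eq_iff_mul_eq_one, q_hh_mul, mul_inv_cancel, q_hh_one]

lemma comm_of_cr {G : Type} [Group G] {x y : G} (h : x * y * x⁻¹ * y⁻¹ = 1) : Commute x y := by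
  have h1 : x * y * x⁻¹ = y := mul_inv_eq_one.mp h
  exact mul_inv_eq_iff_eq_mul.mp h1

lemma q_comm (p : ℕ) (a b : A) (k : ℤ) (hk : ¬ (p : ℤ) ∣ k) :
    Commute (q p (tt ^ (-k) * hh a * tt ^ k)) (q p (hh b)) := by
  have h : cr a b k ∈ K A p :=
    Subgroup.subset_normalClosure (Or.inr ⟨a, b, k, hk, rfl⟩)
  rw [← q_eq_one] at h
  unfold cr at h
  rw [map_mul, map_mul, map_mul, map_inv, map_inv] at h
  exact comm_of_cr h

/-! ### Normal form for `p = 0` -/

/-- The lamp at position `r` in the quotient for `p = 0`. -/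
def L (r : ℤ) (a : A) : E A ⧸ K A 0 := q 0 (tt ^ r * hh a * tt ^ (-r))

lemma L_mul (r : ℤ) (a b : A) : L r a * L r b = L r (a * b) := by
  unfold L
  simp only [map_mul, map_zpow, ← q_hh_mul]
  group

lemma L_one (r : ℤ) : L r (1 : A) = 1 := by
  unfold L
  simp only [map_mul, map_zpow, q_hh_one]
  group

lemma L_zero (a : A) : L 0 a = q 0 (hh a) := by
  unfold L; simp

lemma L_comm (r s : ℤ) (a b : A) (h : r ≠ s) : Commute (L r a) (L s b) := by
  have h0 : ¬ ((0 : ℕ) : ℤ) ∣ s - r := by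
    intro hd
    have := zero_dvd_iff.mp (show (0 : ℤ) ∣ s - r by simpa using hd)
    exact h (by linarith)
  have h1 := q_comm 0 a b (s - r) h0
  have e1 : L r a = q 0 (tt ^ s) * q 0 (tt ^ (-(s - r)) * hh a * tt ^ (s - r)) * (q 0 (tt ^ s))⁻¹ := by
    unfold L
    simp only [map_mul, map_zpow]
    group
  have e2 : L s b = q 0 (tt ^ s) * q 0 (hh b) * (q 0 (tt ^ s))⁻¹ := by
    unfold L
    simp only [map_mul, map_zpow]
    group
  rw [e1, e2]
  unfold Commute SemiconjBy at h1 ⊢
  calc _ = q 0 (tt ^ s) * (q 0 (tt ^ (-(s - r)) * hh a * tt ^ (s - r)) * q 0 (hh b))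
          * (q 0 (tt ^ s))⁻¹ := by group
    _ = q 0 (tt ^ s) * (q 0 (hh b) * q 0 (tt ^ (-(s - r)) * hh a * tt ^ (s - r)))
          * (q 0 (tt ^ s))⁻¹ := by rw [h1]
    _ = _ := by group

/-- The product of a list of lamps. -/
def lampProd (l : List (ℤ × A)) : E A ⧸ K A 0 := (l.map fun x => L x.1 x.2).prod

@[simp] lemma lampProd_nil : lampProd (A := A) [] = 1 := rfl
@[simp] lemma lampProd_cons (x : ℤ × A) (l : List (ℤ × A)) :
    lampProd (x :: l) = L x.1 x.2 * lampProd l := by simp [lampProd]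
lemma lampProd_append (l l' : List (ℤ × A)) :
    lampProd (l ++ l') = lampProd l * lampProd l' := by simp [lampProd]

lemma lampProd_comm (r : ℤ) (b : A) (l : List (ℤ × A)) (h : r ∉ l.map Prod.fst) :
    Commute (L r b) (lampProd l) := by
  induction l with
  | nil => simp
  | cons x l ih =>
    simp only [List.map_cons, List.mem_cons, not_or] at h
    rw [lampProd_cons]
    exact (L_comm r x.1 b x.2 h.1).mul_right (ih h.2)

/-- Normal forms. -/
def NF (x : E A ⧸ K A 0) : Prop :=
  ∃ (l : List (ℤ × A)) (e : ℤ), (l.map Prod.fst).Nodup ∧ x = lampProd l * (q 0 tt) ^ e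

lemma shift_lampProd (c : ℤ) (l : List (ℤ × A)) :
    (q 0 tt) ^ c * lampProd l = lampProd (l.map fun x => (x.1 + c, x.2)) * (q 0 tt) ^ c := by
  induction l with
  | nil => simp
  | cons x l ih =>
    rw [List.map_cons, lampProd_cons, lampProd_cons, mul_assoc, ← ih]
    unfold L
    simp only [map_mul, map_zpow]
    group

lemma NF.shift {x : E A ⧸ K A 0} (h : NF x) (c : ℤ) : NF ((q 0 tt) ^ c * x) := by
  obtain ⟨l, e, hl, rfl⟩ := h
  refine ⟨l.map fun y => (y.1 + c, y.2), c + e, ?_, ?_⟩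
  · have : (l.map fun x => (x.1 + c, x.2)).map Prod.fst = (l.map Prod.fst).map (fun r => r + c) := by
      simp [List.map_map, Function.comp_def]
    rw [this]
    exact hl.map (fun a b hab => by simpa using hab)
  · rw [← mul_assoc, shift_lampProd, mul_assoc, zpow_add]

lemma NF.lamp {x : E A ⧸ K A 0} (h : NF x) (b : A) : NF (L 0 b * x) := by
  obtain ⟨l, e, hl, rfl⟩ := h
  by_cases h0 : (0 : ℤ) ∈ l.map Prod.fst
  · obtain ⟨y, hy, hy0⟩ := List.mem_map.mp h0
    obtain ⟨l1, l2, rfl⟩ := List.append_of_mem hy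
    have h1 : (0 : ℤ) ∉ l1.map Prod.fst := by
      simp only [List.map_append, List.map_cons] at hl
      rw [List.nodup_append] at hl
      intro hmem
      exact hl.2.2 0 hmem y.1 (by simp) hy0.symm
    refine ⟨l1 ++ (0, b * y.2) :: l2, e, ?_, ?_⟩
    · simpa [hy0] using hl
    · rw [lampProd_append, lampProd_append, lampProd_cons, lampProd_cons, hy0, ← L_mul]
      have hc := lampProd_comm 0 b l1 h1
      unfold Commute SemiconjBy at hc
      simp only [← mul_assoc]
      rw [hc]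
  · refine ⟨(0, b) :: l, e, ?_, ?_⟩
    · simpa using ⟨by simpa using h0, hl⟩
    · rw [lampProd_cons, mul_assoc]

lemma NF_mul (u : E A) : ∀ x : E A ⧸ K A 0, NF x → NF (q 0 u * x) := by
  induction u using E_ind with
  | h1 => intro x hx; simpa using hx
  | ht => intro x hx; simpa using hx.shift 1
  | hti => intro x hx; simpa using hx.shift (-1)
  | hh' a => intro x hx; rw [← L_zero]; exact hx.lamp a
  | hhi a => intro x hx; rw [map_inv, q_hh_inv, ← L_zero]; exact hx.lamp a⁻¹
  | hm u v hu hv => intro x hx; rw [map_mul, mul_assoc]; exact hu _ (hv _ hx)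

lemma NF_all (u : E A) : NF (q 0 u) := by
  have := NF_mul u 1 ⟨[], 0, by simp, by simp⟩
  simpa using this

/-- `rho 0` on the quotient. -/
def rhoQ : E A ⧸ K A 0 →* WG A :=
  QuotientGroup.lift (K A 0) (rho 0) (fun x hx => K_le_ker 0 hx)

@[simp] lemma rhoQ_q (u : E A) : rhoQ (q 0 u) = rho 0 u := rfl

lemma rhoQ_L (r : ℤ) (a : A) : rhoQ (L r a) = ⟨0, fun s => if s = r then a else 1⟩ := by
  have e : tt ^ r * hh a * tt ^ (-r) = tt ^ (-(-r)) * hh a * tt ^ (-r) := by rw [neg_neg]
  unfold L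
  rw [rhoQ_q, e, rho_moved]
  apply WG.ext
  · rfl
  · funext s
    have : ((0 : ℕ) : ℤ) ∣ s + -r ↔ s = r := by
      simp only [Nat.cast_zero, zero_dvd_iff]
      constructor <;> intro h <;> linarith
    simp only [this]

lemma rhoQ_lampProd_e (l : List (ℤ × A)) : (rhoQ (lampProd l)).e = 0 := by
  induction l with
  | nil => simp
  | cons x l ih => simp [rhoQ_L, ih]

lemma rhoQ_lampProd_out (l : List (ℤ × A)) (r : ℤ) (h : r ∉ l.map Prod.fst) :
    (rhoQ (lampProd l)).f r = 1 := by
  induction l with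
  | nil => simp
  | cons x l ih =>
    simp only [List.map_cons, List.mem_cons, not_or] at h
    simp only [lampProd_cons, map_mul, WG.mul_f, rhoQ_L, rhoQ_lampProd_e, add_zero, ih h.2, h.1,
      if_false, mul_one]

lemma rhoQ_lampProd_in (l : List (ℤ × A)) (hl : (l.map Prod.fst).Nodup) (x : ℤ × A) (hx : x ∈ l) :
    (rhoQ (lampProd l)).f x.1 = x.2 := by
  induction l with
  | nil => simp at hx
  | cons y l ih =>
    simp only [List.map_cons, List.nodup_cons] at hl
    simp only [lampProd_cons, map_mul, WG.mul_f, rhoQ_L, rhoQ_lampProd_e, add_zero]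
    rcases List.mem_cons.mp hx with hx | hx
    · subst hx
      rw [rhoQ_lampProd_out l x.1 hl.1]
      simp
    · have hne : x.1 ≠ y.1 := by
        intro h
        exact hl.1 (h ▸ List.mem_map_of_mem hx)
      rw [ih hl.2 hx]
      simp [hne]

lemma K_zero_of_rho (u : E A) (h : rho 0 u = 1) : u ∈ K A 0 := by
  obtain ⟨l, e, hl, he⟩ := NF_all u
  have h1 : rhoQ (lampProd l * (q 0 tt) ^ e) = 1 := by
    rw [← he, rhoQ_q, h]
  have h2 : rhoQ ((q 0 tt) ^ e) = (⟨e, fun _ => 1⟩ : WG A) := by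
    rw [← map_zpow, rhoQ_q, rho_tt_zpow]
  rw [map_mul, h2] at h1
  have he0 : e = 0 := by
    have := congrArg WG.e h1
    simpa [rhoQ_lampProd_e] using this
  subst he0
  have h3 : ∀ x ∈ l, x.2 = 1 := by
    intro x hx
    have := congrFun (congrArg WG.f h1) x.1
    simp only [WG.mul_f, add_zero, mul_one, WG.one_f] at this
    rw [← rhoQ_lampProd_in l hl x hx, this]
  rw [← q_eq_one, he, zpow_zero, mul_one]
  unfold lampProd
  apply List.prod_eq_one
  intro y hy
  obtain ⟨x, hx, rfl⟩ := List.mem_map.mp hy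
  rw [h3 x hx, L_one]

/-- Elements that lie in `K A p` for all large `p`. -/
def evK (A : Type) [Group A] : Subgroup (E A) where
  carrier := {u | ∃ B : ℕ, ∀ p : ℕ, B < p → u ∈ K A p}
  mul_mem' := by
    rintro u v ⟨B, hB⟩ ⟨C, hC⟩
    exact ⟨max B C, fun p hp => mul_mem (hB p (lt_of_le_of_lt (le_max_left _ _) hp))
      (hC p (lt_of_le_of_lt (le_max_right _ _) hp))⟩
  one_mem' := ⟨0, fun p _ => one_mem _⟩
  inv_mem' := by
    rintro u ⟨B, hB⟩
    exact ⟨B, fun p hp => inv_mem (hB p hp)⟩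

instance : (evK A).Normal := ⟨by
  rintro u ⟨B, hB⟩ g
  exact ⟨B, fun p hp => (inferInstance : (K A p).Normal).conj_mem u (hB p hp) g⟩⟩

lemma K_zero_le_evK : K A 0 ≤ evK A := by
  refine Subgroup.normalClosure_le_normal ?_
  rintro x (⟨a, b, rfl⟩ | ⟨a, b, k, hk, rfl⟩)
  · exact ⟨0, fun p _ => Subgroup.subset_normalClosure (Or.inl ⟨a, b, rfl⟩)⟩
  · refine ⟨k.natAbs, fun p hp => Subgroup.subset_normalClosure (Or.inr ⟨a, b, k, ?_, rfl⟩)⟩
    intro hd
    apply hk
    have hk0 : k = 0 := by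
      by_contra hne
      have h1 := Int.le_of_dvd (abs_pos.mpr hne) ((dvd_abs _ _).mpr hd)
      have h2 : |k| = k.natAbs := Int.abs_eq_natAbs k
      have h3 : (k.natAbs : ℤ) < p := by exact_mod_cast hp
      linarith
    subst hk0
    simp

lemma ev_of_rho (u : E A) (h : rho 0 u = 1) : ∃ B : ℕ, ∀ p : ℕ, B < p → u ∈ K A p :=
  K_zero_le_evK (K_zero_of_rho u h)

lemma ev_of_rho_eq (u v : E A) (h : rho 0 u = rho 0 v) :
    ∃ B : ℕ, ∀ p : ℕ, B < p → q p u = q p v := by
  obtain ⟨B, hB⟩ := ev_of_rho (u * v⁻¹) (by rw [map_mul, map_inv, h, mul_inv_cancel])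
  refine ⟨B, fun p hp => ?_⟩
  have := hB p hp
  rw [← q_eq_one, map_mul, map_inv, mul_inv_eq_one] at this
  exact this

/-! ### Lamps far apart modulo `p` commute -/

/-- The subgroup generated by the lamps whose index is congruent to `c` modulo `p`. -/
def V (A : Type) [Group A] (p : ℕ) (c : ℤ) : Subgroup (E A ⧸ K A p) :=
  Subgroup.closure {x | ∃ (k : ℤ) (a : A), (p : ℤ) ∣ k - c ∧ x = q p (tt ^ (-k) * hh a * tt ^ k)}

lemma V_gen (p : ℕ) (c k : ℤ) (a : A) (h : (p : ℤ) ∣ k - c) :
    q p (tt ^ (-k) * hh a * tt ^ k) ∈ V A p c :=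
  Subgroup.subset_closure ⟨k, a, h, rfl⟩

lemma V_congr (p : ℕ) (c c' : ℤ) (h : (p : ℤ) ∣ c - c') : V A p c ≤ V A p c' := by
  unfold V
  rw [Subgroup.closure_le]
  rintro x ⟨k, a, hk, rfl⟩
  refine V_gen p c' k a ?_
  have := dvd_add hk h
  have e : k - c + (c - c') = k - c' := by ring
  rwa [e] at this

lemma V_conj (p : ℕ) (g : E A) :
    ∀ (c : ℤ) (x : E A ⧸ K A p), x ∈ V A p c → (q p g)⁻¹ * x * q p g ∈ V A p (c + ex g) := by
  -- reduce to generators of V
  have red : ∀ (g : E A) (c : ℤ), (∀ (k : ℤ) (a : A), (p : ℤ) ∣ k - c →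
      (q p g)⁻¹ * q p (tt ^ (-k) * hh a * tt ^ k) * q p g ∈ V A p (c + ex g)) →
      ∀ x ∈ V A p c, (q p g)⁻¹ * x * q p g ∈ V A p (c + ex g) := by
    intro g c hg x hx
    unfold V at hx
    induction hx using Subgroup.closure_induction with
    | mem x hx =>
      obtain ⟨k, a, hk, rfl⟩ := hx
      exact hg k a hk
    | one => simp [one_mem]
    | mul x y _ _ hx hy =>
      have e : (q p g)⁻¹ * (x * y) * q p g
          = ((q p g)⁻¹ * x * q p g) * ((q p g)⁻¹ * y * q p g) := by group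
      rw [e]
      exact mul_mem hx hy
    | inv x _ hx =>
      have e : (q p g)⁻¹ * x⁻¹ * q p g = ((q p g)⁻¹ * x * q p g)⁻¹ := by group
      rw [e]
      exact inv_mem hx
  have hlamp : ∀ (b : A) (c : ℤ), ∀ x ∈ V A p c, (q p (hh b))⁻¹ * x * q p (hh b) ∈ V A p c := by
    intro b c
    have := red (hh b) c ?_
    · simpa using this
    · intro k a hk
      rw [ex_hh, add_zero]
      by_cases hp : (p : ℤ) ∣ k
      · have h0 : (p : ℤ) ∣ 0 - c := by
          have := dvd_sub hk hp
          have e : k - c - k = 0 - c := by ring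
          rwa [e] at this
        have hb : q p (hh b) ∈ V A p c := by
          have := V_gen p c 0 b h0
          simpa using this
        exact mul_mem (mul_mem (inv_mem hb) (V_gen p c k a hk)) hb
      · have hc := q_comm p a b k hp
        have e : (q p (hh b))⁻¹ * q p (tt ^ (-k) * hh a * tt ^ k) * q p (hh b)
            = q p (tt ^ (-k) * hh a * tt ^ k) := by
          rw [mul_assoc, hc.eq, ← mul_assoc, inv_mul_cancel, one_mul]
        rw [e]
        exact V_gen p c k a hk
  induction g using E_ind with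
  | h1 => intro c x hx; simpa using hx
  | ht =>
    intro c
    refine red tt c ?_
    intro k a hk
    have e : (q p (tt : E A))⁻¹ * q p (tt ^ (-k) * hh a * tt ^ k) * q p tt
        = q p (tt ^ (-(k + 1)) * hh a * tt ^ (k + 1)) := by
      simp only [map_mul, map_zpow]
      group
    rw [e]
    refine V_gen p _ (k + 1) a ?_
    simpa using hk
  | hti =>
    intro c
    refine red tt⁻¹ c ?_
    intro k a hk
    have e : (q p (tt⁻¹ : E A))⁻¹ * q p (tt ^ (-k) * hh a * tt ^ k) * q p tt⁻¹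
        = q p (tt ^ (-(k - 1)) * hh a * tt ^ (k - 1)) := by
      simp only [map_mul, map_zpow, map_inv]
      group
    rw [e]
    refine V_gen p _ (k - 1) a ?_
    have e2 : k - 1 - (c + ex (tt⁻¹ : E A)) = k - c := by simp; ring
    rw [e2]
    exact hk
  | hh' a =>
    intro c x hx
    simpa using hlamp a c x hx
  | hhi a =>
    intro c x hx
    have := hlamp a⁻¹ c x hx
    rw [← q_hh_inv] at this
    simpa using this
  | hm g g' hg hg' =>
    intro c x hx
    have h1 := hg c x hx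
    have h2 := hg' _ _ h1
    have e : (q p (g * g'))⁻¹ * x * q p (g * g')
        = (q p g')⁻¹ * ((q p g)⁻¹ * x * q p g) * q p g' := by
      rw [map_mul]; group
    rw [e, ex_mul, ← add_assoc]
    exact h2

lemma V_comm (p : ℕ) (c : ℤ) (hc : ¬ (p : ℤ) ∣ c) (x : E A ⧸ K A p) (hx : x ∈ V A p c) (b : A) :
    Commute x (q p (hh b)) := by
  unfold V at hx
  induction hx using Subgroup.closure_induction with
  | mem x hx =>
    obtain ⟨k, a, hk, rfl⟩ := hx
    refine q_comm p a b k ?_
    intro h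
    apply hc
    have := dvd_sub h hk
    have e : k - (k - c) = c := by ring
    rwa [e] at this
  | one => exact Commute.one_left _
  | mul x y _ _ hx hy => exact hx.mul_left hy
  | inv x _ hx => exact hx.inv_left

lemma comm_far (p : ℕ) (g : E A) (hg : ¬ (p : ℤ) ∣ ex g) (a b : A) :
    Commute ((q p g)⁻¹ * q p (hh a) * q p g) (q p (hh b)) := by
  have h0 : q p (hh a) ∈ V A p 0 := by
    have := V_gen p 0 0 a (by simp)
    simpa using this
  have h1 := V_conj p g 0 _ h0
  rw [zero_add] at h1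
  exact V_comm p (ex g) hg _ h1 b

end Pool.LP
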