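import Pool.Agent.LP.Endo

/-!
# The self-similar group: a mixed radix odometer and a directed lamp
-/

set_option autoImplicit false

namespace Pool.LP

/-- Letters: digits to base 2, digits to base 3, and digits to base 6 with a label. -/
abbrev X (A : Type) := ZMod 2 ⊕ ZMod 3 ⊕ (ZMod 6 × A)

variable {A : Type} [Group A]

/-- A digit to base 2. -/
abbrev d2 (x : ZMod 2) : X A := Sum.inl x
/-- A digit to base 3. -/
abbrev d3 (x : ZMod 3) : X A := Sum.inr (Sum.inl x)
/-- A labelled digit to base 6. -/
abbrev d6 (z : ZMod 6) (a : A) : X A := Sum.inr (Sum.inr (z, a))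

/-- Add one, with carry; the labelled digit stops the carry. -/
def tFun : List (X A) → List (X A)
  | [] => []
  | Sum.inl x :: w => d2 (x + 1) :: (if x = -1 then tFun w else w)
  | Sum.inr (Sum.inl x) :: w => d3 (x + 1) :: (if x = -1 then tFun w else w)
  | Sum.inr (Sum.inr (z, a)) :: w => d6 (z + 1) a :: w

/-- Subtract one. -/
def tInv : List (X A) → List (X A)
  | [] => []
  | Sum.inl x :: w => d2 (x - 1) :: (if x = 0 then tInv w else w)
  | Sum.inr (Sum.inl x) :: w => d3 (x - 1) :: (if x = 0 then tInv w else w)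
  | Sum.inr (Sum.inr (z, a)) :: w => d6 (z - 1) a :: w

/-- Multiply the label when all digits before it and its own digit vanish. -/
def hFun (c : A) : List (X A) → List (X A)
  | [] => []
  | Sum.inl x :: w => d2 x :: (if x = 0 then hFun c w else w)
  | Sum.inr (Sum.inl x) :: w => d3 x :: (if x = 0 then hFun c w else w)
  | Sum.inr (Sum.inr (z, a)) :: w => d6 z (if z = 0 then c * a else a) :: w

omit [Group A] in
lemma tInv_tFun (w : List (X A)) : tInv (tFun w) = w := by
  induction w with
  | nil => rfl
  | cons x w ih =>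
    rcases x with x | x | ⟨z, a⟩
    · by_cases h : x = -1
      · subst h
        simp only [tFun, tInv, if_true, neg_add_cancel, zero_sub, ih]
      · have : x + 1 ≠ 0 := fun h' => h (eq_neg_of_add_eq_zero_left h')
        simp only [tFun, tInv, if_neg h, if_neg this, add_sub_cancel_right]
    · by_cases h : x = -1
      · subst h
        simp only [tFun, tInv, if_true, neg_add_cancel, zero_sub, ih]
      · have : x + 1 ≠ 0 := fun h' => h (eq_neg_of_add_eq_zero_left h')
        simp only [tFun, tInv, if_neg h, if_neg this, add_sub_cancel_right]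
    · simp [tFun, tInv]

omit [Group A] in
lemma tFun_tInv (w : List (X A)) : tFun (tInv w) = w := by
  induction w with
  | nil => rfl
  | cons x w ih =>
    rcases x with x | x | ⟨z, a⟩
    · by_cases h : x = 0
      · subst h
        simp only [tFun, tInv, if_true, neg_add_cancel, zero_sub, ih]
      · have : x - 1 ≠ -1 := fun h' => h (by linear_combination h')
        simp only [tFun, tInv, if_neg h, if_neg this, sub_add_cancel]
    · by_cases h : x = 0
      · subst h
        simp only [tFun, tInv, if_true, neg_add_cancel, zero_sub, ih]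
      · have : x - 1 ≠ -1 := fun h' => h (by linear_combination h')
        simp only [tFun, tInv, if_neg h, if_neg this, sub_add_cancel]
    · simp [tFun, tInv]

lemma hFun_mul (c c' : A) (w : List (X A)) : hFun c (hFun c' w) = hFun (c * c') w := by
  induction w with
  | nil => rfl
  | cons x w ih =>
    rcases x with x | x | ⟨z, a⟩
    · by_cases h : x = 0 <;> simp [hFun, h, ih]
    · by_cases h : x = 0 <;> simp [hFun, h, ih]
    · by_cases h : z = 0 <;> simp [hFun, h, mul_assoc]

lemma hFun_one (w : List (X A)) : hFun (1 : A) w = w := by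
  induction w with
  | nil => rfl
  | cons x w ih =>
    rcases x with x | x | ⟨z, a⟩
    · by_cases h : x = 0 <;> simp [hFun, h, ih]
    · by_cases h : x = 0 <;> simp [hFun, h, ih]
    · by_cases h : z = 0 <;> simp [hFun, h]

/-- The odometer. -/
def tPerm : Equiv.Perm (List (X A)) := ⟨tFun, tInv, tInv_tFun, tFun_tInv⟩

/-- The directed lamp. -/
def hPerm (c : A) : Equiv.Perm (List (X A)) :=
  ⟨hFun c, hFun c⁻¹, fun w => by rw [hFun_mul, inv_mul_cancel, hFun_one],
    fun w => by rw [hFun_mul, mul_inv_cancel, hFun_one]⟩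

/-- The images of the letters. -/
def egen : Option A → Equiv.Perm (List (X A))
  | none => tPerm
  | some a => hPerm a

/-- The action of the free group. -/
def eps : E A →* Equiv.Perm (List (X A)) := FreeGroup.lift egen

@[simp] lemma eps_tt : eps (tt : E A) = tPerm := by simp [eps, tt, egen]
@[simp] lemma eps_hh (a : A) : eps (hh a) = hPerm a := by simp [eps, hh, egen]

/-- The base of a digit. -/
def bs (b : Bool) : ℕ := if b then 3 else 2

/-- The number of values of a list of digits. -/
def nb : List Bool → ℕ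
  | [] => 1
  | b :: l => bs b * nb l

/-- A digit. -/
def dig (b : Bool) (r : ℤ) : X A := if b then d3 (r : ZMod 3) else d2 (r : ZMod 2)

/-- The word with digits of `r` in the given bases, followed by a labelled digit or by nothing. -/
def enc : List Bool → ℤ → Option A → List (X A)
  | [], _, none => []
  | [], r, some a => [d6 (r : ZMod 6) a]
  | b :: l, r, o => dig b r :: enc l (r / (bs b : ℤ)) o

lemma bs_pos (b : Bool) : 0 < bs b := by cases b <;> simp [bs]

lemma two_le_bs (b : Bool) : 2 ≤ bs b := by cases b <;> simp [bs]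

lemma nb_pos (l : List Bool) : 0 < nb l := by
  induction l with
  | nil => simp [nb]
  | cons b l ih => exact Nat.mul_pos (bs_pos b) ih

lemma nb_append (l l' : List Bool) : nb (l ++ l') = nb l * nb l' := by
  induction l with
  | nil => simp [nb]
  | cons b l ih => simp [nb, ih, mul_assoc]

lemma nb_form (l : List Bool) : ∃ i j : ℕ, nb l = 2 ^ i * 3 ^ j := by
  induction l with
  | nil => exact ⟨0, 0, by simp [nb]⟩
  | cons b l ih =>
    obtain ⟨i, j, h⟩ := ih
    cases b
    · exact ⟨i + 1, j, by simp [nb, bs, h]; ring⟩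
    · exact ⟨i, j + 1, by simp [nb, bs, h]; ring⟩

lemma nb_replicate (i j : ℕ) : nb (List.replicate i false ++ List.replicate j true) = 2 ^ i * 3 ^ j := by
  rw [nb_append]
  congr 1
  · induction i with
    | zero => simp [nb]
    | succ i ih => rw [List.replicate_succ, nb, ih, bs]; simp [pow_succ, mul_comm]
  · induction j with
    | zero => simp [nb]
    | succ i ih => rw [List.replicate_succ, nb, ih, bs]; simp [pow_succ, mul_comm]

lemma two_pow_le_nb (l : List Bool) : 2 ^ l.length ≤ nb l := by
  induction l with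
  | nil => simp [nb]
  | cons b l ih =>
    rw [List.length_cons, pow_succ, nb, mul_comm]
    exact Nat.mul_le_mul (two_le_bs b) ih

/-! ### Arithmetic of digits -/

lemma add_one_div (n : ℕ) (hn : 0 < n) (r : ℤ) :
    (r + 1) / (n : ℤ) = if (n : ℤ) ∣ r + 1 then r / (n : ℤ) + 1 else r / (n : ℤ) := by
  have hn' : (0 : ℤ) < n := by exact_mod_cast hn
  split_ifs with h
  · obtain ⟨c, hc⟩ := h
    have e : r = (n - 1) + n * (c - 1) := by linear_combination hc
    rw [hc, Int.mul_ediv_cancel_left _ hn'.ne', e, Int.add_mul_ediv_left _ _ hn'.ne',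
      Int.ediv_eq_zero_of_lt (by linarith) (by linarith)]
    ring
  · have h1 := Int.emod_add_mul_ediv r n
    have h2 := Int.emod_lt_of_pos r hn'
    have h3 := Int.emod_nonneg r hn'.ne'
    have h4 : r % n + 1 ≠ n := by
      intro h5
      apply h
      refine ⟨r / n + 1, ?_⟩
      linear_combination h5 - h1
    have e : r + 1 = (r % n + 1) + n * (r / n) := by linear_combination -h1
    rw [e, Int.add_mul_ediv_left _ _ hn'.ne', Int.ediv_eq_zero_of_lt (by linarith) (by
      have : r % n + 1 ≤ n := by linarith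
      exact lt_of_le_of_ne this h4)]
    ring

lemma cast_eq_neg_one (n : ℕ) (r : ℤ) : ((r : ZMod n) = -1) ↔ (n : ℤ) ∣ r + 1 := by
  rw [← ZMod.intCast_zmod_eq_zero_iff_dvd]
  push_cast
  exact eq_neg_iff_add_eq_zero

lemma cast_eq_zero (n : ℕ) (r : ℤ) : ((r : ZMod n) = 0) ↔ (n : ℤ) ∣ r :=
  ZMod.intCast_zmod_eq_zero_iff_dvd r n

lemma tPerm_dig (b : Bool) (r : ℤ) (w : List (X A)) :
    tPerm (dig b r :: w) = dig b (r + 1) :: (if ((bs b : ℕ) : ℤ) ∣ r + 1 then tPerm w else w) := by
  cases b
  · show tFun (d2 (r : ZMod 2) :: w) = d2 ((r + 1 : ℤ) : ZMod 2) :: _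
    have := cast_eq_neg_one 2 r
    by_cases h : (r : ZMod 2) = -1
    · have h' : ((bs false : ℕ) : ℤ) ∣ r + 1 := this.mp h
      rw [if_pos h']
      simp only [tFun, if_pos h]
      push_cast
      rfl
    · have h' : ¬ ((bs false : ℕ) : ℤ) ∣ r + 1 := fun h' => h (this.mpr h')
      rw [if_neg h']
      simp only [tFun, if_neg h]
      push_cast
      rfl
  · show tFun (d3 (r : ZMod 3) :: w) = d3 ((r + 1 : ℤ) : ZMod 3) :: _
    have := cast_eq_neg_one 3 r
    by_cases h : (r : ZMod 3) = -1
    · have h' : ((bs true : ℕ) : ℤ) ∣ r + 1 := this.mp h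
      rw [if_pos h']
      simp only [tFun, if_pos h]
      push_cast
      rfl
    · have h' : ¬ ((bs true : ℕ) : ℤ) ∣ r + 1 := fun h' => h (this.mpr h')
      rw [if_neg h']
      simp only [tFun, if_neg h]
      push_cast
      rfl

lemma hPerm_dig (c : A) (b : Bool) (r : ℤ) (w : List (X A)) :
    hPerm c (dig b r :: w) = dig b r :: (if ((bs b : ℕ) : ℤ) ∣ r then hPerm c w else w) := by
  cases b
  · show hFun c (d2 (r : ZMod 2) :: w) = d2 (r : ZMod 2) :: _
    have := cast_eq_zero 2 r
    by_cases h : (r : ZMod 2) = 0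
    · have h' : ((bs false : ℕ) : ℤ) ∣ r := this.mp h
      rw [if_pos h']
      simp [hFun, h, hPerm]
    · have h' : ¬ ((bs false : ℕ) : ℤ) ∣ r := fun h' => h (this.mpr h')
      rw [if_neg h']
      simp [hFun, h]
  · show hFun c (d3 (r : ZMod 3) :: w) = d3 (r : ZMod 3) :: _
    have := cast_eq_zero 3 r
    by_cases h : (r : ZMod 3) = 0
    · have h' : ((bs true : ℕ) : ℤ) ∣ r := this.mp h
      rw [if_pos h']
      simp [hFun, h, hPerm]
    · have h' : ¬ ((bs true : ℕ) : ℤ) ∣ r := fun h' => h (this.mpr h')
      rw [if_neg h']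
      simp [hFun, h]

lemma tPerm_enc (l : List Bool) (r : ℤ) (a : A) (w : List (X A)) :
    tPerm (enc l r (some a) ++ w) = enc l (r + 1) (some a) ++ w := by
  induction l generalizing r with
  | nil =>
    show tFun (d6 (r : ZMod 6) a :: w) = d6 ((r + 1 : ℤ) : ZMod 6) a :: w
    simp [tFun]
  | cons b l ih =>
    simp only [enc, List.cons_append]
    rw [tPerm_dig, add_one_div _ (bs_pos b)]
    by_cases h : ((bs b : ℕ) : ℤ) ∣ r + 1
    · rw [if_pos h, if_pos h, ih]
    · rw [if_neg h, if_neg h]

lemma tPerm_enc_none (l : List Bool) (r : ℤ) :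
    tPerm (enc l r (none : Option A)) = enc l (r + 1) none := by
  induction l generalizing r with
  | nil => rfl
  | cons b l ih =>
    simp only [enc]
    rw [tPerm_dig, add_one_div _ (bs_pos b)]
    by_cases h : ((bs b : ℕ) : ℤ) ∣ r + 1
    · rw [if_pos h, if_pos h, ih]
    · rw [if_neg h, if_neg h]

lemma hPerm_enc (c : A) (l : List Bool) (r : ℤ) (a : A) (w : List (X A)) :
    hPerm c (enc l r (some a) ++ w)
      = enc l r (some (if ((6 * nb l : ℕ) : ℤ) ∣ r then c * a else a)) ++ w := by
  induction l generalizing r with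
  | nil =>
    show hFun c (d6 (r : ZMod 6) a :: w) = _
    have := cast_eq_zero 6 r
    by_cases h : (r : ZMod 6) = 0
    · have h' : ((6 * nb [] : ℕ) : ℤ) ∣ r := by simpa [nb] using this.mp h
      rw [if_pos h']
      simp [hFun, enc, h]
    · have h' : ¬ ((6 * nb [] : ℕ) : ℤ) ∣ r := fun h' => h (this.mpr (by simpa [nb] using h'))
      rw [if_neg h']
      simp [hFun, enc, h]
  | cons b l ih =>
    simp only [enc, List.cons_append]
    rw [hPerm_dig]
    have hb : ((bs b : ℕ) : ℤ) ≠ 0 := by exact_mod_cast (bs_pos b).ne'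
    by_cases h : ((bs b : ℕ) : ℤ) ∣ r
    · rw [if_pos h, ih]
      obtain ⟨s, rfl⟩ := h
      rw [Int.mul_ediv_cancel_left _ hb]
      have : (((6 * nb (b :: l) : ℕ) : ℤ) ∣ (bs b : ℤ) * s) ↔ ((6 * nb l : ℕ) : ℤ) ∣ s := by
        have e : ((6 * nb (b :: l) : ℕ) : ℤ) = (bs b : ℤ) * ((6 * nb l : ℕ) : ℤ) := by
          simp only [nb]; push_cast; ring
        rw [e]
        exact mul_dvd_mul_iff_left hb
      simp only [this]
    · rw [if_neg h]
      have : ¬ ((6 * nb (b :: l) : ℕ) : ℤ) ∣ r := by
        intro h'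
        apply h
        refine dvd_trans ?_ h'
        simp only [nb]
        push_cast
        exact ⟨6 * nb l, by ring⟩
      rw [if_neg this]

lemma hPerm_enc_none (c : A) (l : List Bool) (r : ℤ) :
    hPerm c (enc l r (none : Option A)) = enc l r none := by
  induction l generalizing r with
  | nil => rfl
  | cons b l ih =>
    simp only [enc]
    rw [hPerm_dig, ih]
    split_ifs <;> rfl

/-- The action on words with a label. -/
lemma eps_enc (u : E A) (l : List Bool) (r : ℤ) (a : A) (w : List (X A)) :
    eps u (enc l r (some a) ++ w)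
      = enc l (r + ex u) (some ((rho (6 * nb l) u).f r * a)) ++ w := by
  induction u using E_ind generalizing r a with
  | h1 => simp
  | ht => simp [tPerm_enc]
  | hti =>
    rw [map_inv, eps_tt, Equiv.Perm.inv_eq_iff_eq, tPerm_enc]
    simp
  | hh' c =>
    rw [eps_hh, hPerm_enc]
    simp only [ex_hh, add_zero, rho_hh]
    split_ifs <;> simp
  | hhi c =>
    rw [map_inv, eps_hh, Equiv.Perm.inv_eq_iff_eq, hPerm_enc]
    simp only [ex_inv, ex_hh, neg_zero, add_zero, map_inv, WG.inv_f, rho_hh, sub_zero]
    split_ifs <;> simp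
  | hm x y hx hy =>
    rw [map_mul, Equiv.Perm.mul_apply, hy, hx]
    simp only [map_mul, WG.mul_f, ex_mul, rho_ex, mul_assoc, add_assoc, add_comm (ex y) (ex x)]

/-- The action on words without a label. -/
lemma eps_enc_none (u : E A) (l : List Bool) (r : ℤ) :
    eps u (enc l r (none : Option A)) = enc l (r + ex u) none := by
  induction u using E_ind generalizing r with
  | h1 => simp
  | ht => simp [tPerm_enc_none]
  | hti =>
    rw [map_inv, eps_tt, Equiv.Perm.inv_eq_iff_eq, tPerm_enc_none]
    simp
  | hh' c => rw [eps_hh, hPerm_enc_none]; simp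
  | hhi c =>
    rw [map_inv, eps_hh, Equiv.Perm.inv_eq_iff_eq, hPerm_enc_none]
    simp
  | hm x y hx hy =>
    rw [map_mul, Equiv.Perm.mul_apply, hy, hx]
    simp only [ex_mul, add_assoc, add_comm (ex y) (ex x)]

end Pool.LP
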